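import Mathlib

/-!
# Continuous solutions of `f (x + f x) = f x + f (f x)` : combinatorial core

Binomial arrays and the resulting log-convexity inequality.
-/

namespace Pool.Agent.H717R2

open Finset

lemma pascal_sum (b : ℕ → ℝ) (m i : ℕ) :
    (∑ k ∈ range (m + 2), ((m + 1).choose k : ℝ) * b (k + i)) =
      (∑ k ∈ range (m + 1), (m.choose k : ℝ) * b (k + i)) +
      (∑ k ∈ range (m + 1), (m.choose k : ℝ) * b (k + (i + 1))) := by
  rw [Finset.sum_range_succ' _ (m + 1)]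
  have h1 : ∑ k ∈ range (m + 1), (((m + 1).choose (k + 1) : ℕ) : ℝ) * b (k + 1 + i)
      = ∑ k ∈ range (m + 1), ((m.choose k : ℝ) * b (k + (i + 1))) +
        ∑ k ∈ range (m + 1), ((m.choose (k + 1) : ℝ) * b (k + 1 + i)) := by
    rw [← Finset.sum_add_distrib]
    refine Finset.sum_congr rfl fun k _ => ?_
    rw [Nat.choose_succ_succ]
    push_cast
    rw [show k + 1 + i = k + (i + 1) by ring]
    ring
  rw [h1]
  have h2 : ∑ k ∈ range (m + 1), ((m.choose k : ℝ) * b (k + i)) =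
      ∑ k ∈ range (m + 2), ((m.choose k : ℝ) * b (k + i)) := by
    rw [Finset.sum_range_succ _ (m + 1)]
    simp
  rw [h2, Finset.sum_range_succ' _ (m + 1)]
  simp
  ring

lemma arr_sum (a : ℕ → ℕ → ℝ) (n : ℕ)
    (hrec : ∀ m k, m < n → m + k ≤ n + 1 → a (m + 1) k = a m k + a m (k + 1)) :
    ∀ m, m ≤ n → ∀ i, m + i ≤ n + 2 →
      a m i = ∑ k ∈ range (m + 1), (m.choose k : ℝ) * a 0 (k + i) := by
  intro m
  induction m with
  | zero => intro _ i _; simp
  | succ m ih =>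
    intro hm i hi
    rw [hrec m i (by omega) (by omega), ih (by omega) i (by omega),
      ih (by omega) (i + 1) (by omega), pascal_sum (a 0) m i]

lemma binom_id1 (b : ℕ → ℝ) (n : ℕ) :
    ∑ k ∈ range (n + 3), ((n + 2).choose k : ℝ) * b k * ((k : ℝ) * ((n + 2 : ℝ) - k)) =
      (n + 2) * (n + 1) * ∑ k ∈ range (n + 1), (n.choose k : ℝ) * b (k + 1) := by
  rw [Finset.sum_range_succ' _ (n + 2), Finset.sum_range_succ _ (n + 1), Finset.mul_sum]
  have : ∀ k ∈ range (n + 1), (((n + 2).choose (k + 1) : ℕ) : ℝ) * b (k + 1) *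
      (((k + 1 : ℕ) : ℝ) * ((n + 2 : ℝ) - ((k + 1 : ℕ) : ℝ))) =
      (n + 2) * (n + 1) * ((n.choose k : ℝ) * b (k + 1)) := by
    intro k hk
    have hk' : k ≤ n := by simpa [Nat.lt_succ_iff] using hk
    have e1 := Nat.add_one_mul_choose_eq (n + 1) k
    have e2 := Nat.choose_mul_succ_eq n k
    have e1' : ((n : ℝ) + 2) * ((n + 1).choose k : ℝ) = ((n + 2).choose (k + 1) : ℝ) * (k + 1) := by
      have := congrArg (fun z : ℕ => (z : ℝ)) e1
      push_cast at this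
      have h3 : ((n : ℝ) + 1 + 1) = n + 2 := by ring
      simpa [Nat.succ_eq_add_one, h3] using this
    have e2' : (n.choose k : ℝ) * ((n : ℝ) + 1) = ((n + 1).choose k : ℝ) * ((n : ℝ) + 1 - k) := by
      have := congrArg (fun z : ℕ => (z : ℝ)) e2
      simp only [Nat.cast_mul] at this
      rw [Nat.cast_sub (by omega)] at this
      push_cast at this
      exact this
    push_cast
    have : (((n + 2).choose (k + 1) : ℕ) : ℝ) * b (k + 1) *
      ((((k : ℝ) + 1) * ((n + 2 : ℝ) - ((k : ℝ) + 1)))) =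
      ((((n + 2).choose (k + 1) : ℕ) : ℝ) * ((k : ℝ) + 1)) * b (k + 1) * ((n : ℝ) + 1 - k) := by ring
    rw [this, ← e1']
    have : ((n : ℝ) + 2) * ((n + 1).choose k : ℝ) * b (k + 1) * ((n : ℝ) + 1 - k) =
      ((n : ℝ) + 2) * b (k + 1) * (((n + 1).choose k : ℝ) * ((n : ℝ) + 1 - k)) := by ring
    rw [this, ← e2']
    ring
  rw [Finset.sum_congr rfl this]
  push_cast
  ring

lemma binom_id2 (b : ℕ → ℝ) (n : ℕ) :
    ∑ k ∈ range (n + 3), ((n + 2).choose k : ℝ) * b k * ((k : ℝ) ^ 2) =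
      (n + 2) * ((n + 2) * (∑ k ∈ range (n + 1), (n.choose k : ℝ) * b (k + 2)) +
        ∑ k ∈ range (n + 1), (n.choose k : ℝ) * b (k + 1)) := by
  -- step: reduce to sums with `choose (n+1)`
  have key : ∀ (c : ℕ → ℝ) (N : ℕ),
      ∑ k ∈ range (N + 2), ((N + 1).choose k : ℝ) * (k : ℝ) * c k =
        (N + 1) * ∑ k ∈ range (N + 1), (N.choose k : ℝ) * c (k + 1) := by
    intro c N
    rw [Finset.sum_range_succ' _ (N + 1), Finset.mul_sum]
    simp only [Nat.cast_zero, mul_zero, zero_mul, add_zero]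
    refine Finset.sum_congr rfl fun k _ => ?_
    have e1 := congrArg (fun z : ℕ => (z : ℝ)) (Nat.add_one_mul_choose_eq N k)
    push_cast at e1
    push_cast
    rw [← e1]; ring
  have h1 := key (fun k => (k : ℝ) * b k) (n + 1)
  have h2 := key (fun k => b (k + 1)) n
  have h3 := pascal_sum b n 1
  have : ∑ k ∈ range (n + 3), ((n + 2).choose k : ℝ) * b k * ((k : ℝ) ^ 2) =
      ∑ k ∈ range (n + 1 + 2), ((n + 1 + 1).choose k : ℝ) * (k : ℝ) * ((k : ℝ) * b k) :=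
    Finset.sum_congr rfl fun k _ => by ring_nf
  rw [this, h1]
  have : ∑ k ∈ range (n + 1 + 1), ((n + 1).choose k : ℝ) * (((k + 1 : ℕ) : ℝ) * b (k + 1)) =
      ∑ k ∈ range (n + 2), ((n + 1).choose k : ℝ) * (k : ℝ) * b (k + 1) +
      ∑ k ∈ range (n + 2), ((n + 1).choose k : ℝ) * b (k + 1) := by
    rw [← Finset.sum_add_distrib]
    refine Finset.sum_congr rfl fun k _ => ?_
    push_cast; ring
  rw [this, h2, h3]
  push_cast
  ring

lemma binom_id3 (b : ℕ → ℝ) (n : ℕ) :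
    ∑ k ∈ range (n + 3), ((n + 2).choose k : ℝ) * b k * (((n + 2 : ℝ) - k) ^ 2) =
      (n + 2) * ((n + 2) * (∑ k ∈ range (n + 1), (n.choose k : ℝ) * b k) +
        ∑ k ∈ range (n + 1), (n.choose k : ℝ) * b (k + 1)) := by
  have key : ∀ (c : ℕ → ℝ) (N : ℕ),
      ∑ k ∈ range (N + 2), ((N + 1).choose k : ℝ) * ((N + 1 : ℝ) - k) * c k =
        (N + 1) * ∑ k ∈ range (N + 1), (N.choose k : ℝ) * c k := by
    intro c N
    rw [Finset.sum_range_succ _ (N + 1), Finset.mul_sum]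
    have h0 : (((N + 1).choose (N + 1) : ℕ) : ℝ) * ((N + 1 : ℝ) - ((N + 1 : ℕ) : ℝ)) * c (N + 1) = 0 := by
      push_cast; ring
    rw [h0, add_zero]
    refine Finset.sum_congr rfl fun k hk => ?_
    have hk' : k ≤ N := by simpa [Nat.lt_succ_iff] using hk
    have e2 := congrArg (fun z : ℕ => (z : ℝ)) (Nat.choose_mul_succ_eq N k)
    simp only [Nat.cast_mul] at e2
    rw [Nat.cast_sub (by omega)] at e2
    push_cast at e2
    rw [← e2]; ring
  have h1 := key (fun k => ((n : ℝ) + 2 - k) * b k) (n + 1)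
  have h2 := key b n
  have h3 := pascal_sum b n 0
  have : ∑ k ∈ range (n + 3), ((n + 2).choose k : ℝ) * b k * (((n + 2 : ℝ) - k) ^ 2) =
      ∑ k ∈ range (n + 1 + 2), ((n + 1 + 1).choose k : ℝ) * ((((n + 1 : ℕ) : ℝ) + 1) - (k : ℝ)) *
        (((n : ℝ) + 2 - k) * b k) :=
    Finset.sum_congr rfl fun k _ => by push_cast; ring_nf
  rw [this, h1]
  have : ∑ k ∈ range (n + 1 + 1), ((n + 1).choose k : ℝ) * (((n : ℝ) + 2 - k) * b k) =
      ∑ k ∈ range (n + 2), ((n + 1).choose k : ℝ) * ((n + 1 : ℝ) - k) * b k +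
      ∑ k ∈ range (n + 2), ((n + 1).choose k : ℝ) * b (k + 0) := by
    rw [← Finset.sum_add_distrib]
    refine Finset.sum_congr rfl fun k _ => ?_
    simp only [add_zero]
    ring
  rw [this, h2, h3]
  push_cast
  simp only [add_zero]
  ring

/-- The key inequality for binomial arrays. -/
lemma array_ineq (a : ℕ → ℕ → ℝ) (n : ℕ) (hpos : ∀ m k, 0 ≤ a m k)
    (hrec : ∀ m k, m < n → m + k ≤ n + 1 → a (m + 1) k = a m k + a m (k + 1)) :
    ((n + 1) * a n 1) ^ 2 ≤ ((n + 2) * a n 2 + a n 1) * ((n + 2) * a n 0 + a n 1) := by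
  have s0 := arr_sum a n hrec n le_rfl 0 (by omega)
  have s1 := arr_sum a n hrec n le_rfl 1 (by omega)
  have s2 := arr_sum a n hrec n le_rfl 2 (by omega)
  simp only [add_zero] at s0
  have i1 := binom_id1 (a 0) n
  have i2 := binom_id2 (a 0) n
  have i3 := binom_id3 (a 0) n
  rw [← s1] at i1
  rw [← s2, ← s1] at i2
  rw [← s0, ← s1] at i3
  have cs := Finset.sum_sq_le_sum_mul_sum_of_sq_le_mul (range (n + 3))
    (r := fun k => ((n + 2).choose k : ℝ) * a 0 k * ((k : ℝ) * ((n + 2 : ℝ) - k)))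
    (f := fun k => ((n + 2).choose k : ℝ) * a 0 k * ((k : ℝ) ^ 2))
    (g := fun k => ((n + 2).choose k : ℝ) * a 0 k * (((n + 2 : ℝ) - k) ^ 2))
    (fun k _ => mul_nonneg (mul_nonneg (Nat.cast_nonneg _) (hpos 0 k)) (sq_nonneg _))
    (fun k _ => mul_nonneg (mul_nonneg (Nat.cast_nonneg _) (hpos 0 k)) (sq_nonneg _))
    (fun k _ => le_of_eq (by ring))
  rw [i1, i2, i3] at cs
  have hn : (0 : ℝ) < ((n : ℝ) + 2) ^ 2 := by positivity
  have : ((n : ℝ) + 2) ^ 2 * (((n + 1) * a n 1) ^ 2) ≤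
      ((n : ℝ) + 2) ^ 2 * (((n + 2) * a n 2 + a n 1) * ((n + 2) * a n 0 + a n 1)) := by
    nlinarith [cs]
  exact le_of_mul_le_mul_left this hn

lemma limit_ineq (A B D : ℝ)
    (h : ∀ n : ℕ, (((n : ℝ) + 1) * B) ^ 2 ≤ ((n + 2) * D + B) * ((n + 2) * A + B)) :
    B ^ 2 ≤ A * D := by
  by_contra hcon
  push Not at hcon
  obtain ⟨n, hn⟩ := exists_nat_gt ((2 * B ^ 2 + (A + D) * B) / (B ^ 2 - A * D))
  have hδ : 0 < B ^ 2 - A * D := by linarith
  rw [div_lt_iff₀ hδ] at hn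
  have h1 := h n
  have hn0 : (0 : ℝ) ≤ n := Nat.cast_nonneg n
  -- with N = n+2 : N^2 δ ≤ N (2B² + (A+D)B)
  have h2 : ((n : ℝ) + 2) * (((n : ℝ) + 2) * (B ^ 2 - A * D)) ≤
      ((n : ℝ) + 2) * (2 * B ^ 2 + (A + D) * B) := by nlinarith
  have h3 := le_of_mul_le_mul_left h2 (by positivity)
  nlinarith

end Pool.Agent.H717R2
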