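import Pool.Agent.H717R2.FeqA

/-!
# The expansion lemma
-/

namespace Pool.Agent.H717R2

open Set

structure ExpData (E C : ℝ → ℝ) (T : Set ℝ) (a : ℝ) : Prop where
  apos : 0 < a
  contE : ContinuousOn E (Icc (-a) a)
  contC : ContinuousOn C (Icc (-a) a)
  E0 : E 0 = 0
  ne0 : ∀ x ∈ T, x ≠ 0
  cone : ∀ x ∈ T, ∀ s : ℝ, 0 < s → s * x ∈ T
  nonempty : T.Nonempty
  closed : IsClosed (T ∪ {0})
  mapE : ∀ x ∈ T, |x| ≤ a → E x ∈ T
  mapC : ∀ x ∈ T, |x| ≤ a → C x ∈ T
  add : ∀ x ∈ T, |x| ≤ a → |E x| = |x| + |C x|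
  comm : ∀ x ∈ T, |x| ≤ a → |E x| ≤ a → E (C x) = C (E x)
  surj : ∀ y ∈ T, |y| ≤ a → ∃ z ∈ T, |z| ≤ a ∧ E z = y

variable {E C : ℝ → ℝ} {T : Set ℝ} {a : ℝ}

lemma ExpData.Cpos (h : ExpData E C T a) {x : ℝ} (hx : x ∈ T) (hxa : |x| ≤ a) : 0 < |C x| :=
  abs_pos.mpr (h.ne0 _ (h.mapC x hx hxa))

lemma ExpData.xpos (h : ExpData E C T a) {x : ℝ} (hx : x ∈ T) : 0 < |x| :=
  abs_pos.mpr (h.ne0 _ hx)

lemma ExpData.orbit (h : ExpData E C T a) (n : ℕ) :
    ∀ y ∈ T, |y| ≤ a → ∃ x ∈ T, |x| ≤ a ∧ E^[n] x = y ∧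
      ∀ j ≤ n, E^[j] x ∈ T ∧ |E^[j] x| ≤ a := by
  induction n with
  | zero =>
    intro y hy hya
    refine ⟨y, hy, hya, rfl, fun j hj => ?_⟩
    obtain rfl : j = 0 := by omega
    exact ⟨hy, hya⟩
  | succ n ih =>
    intro y hy hya
    obtain ⟨z, hz, hza, hzy⟩ := h.surj y hy hya
    obtain ⟨x, hx, hxa, hxz, hj⟩ := ih z hz hza
    have hE : E^[n + 1] x = y := by
      rw [Function.iterate_succ_apply', hxz, hzy]
    refine ⟨x, hx, hxa, hE, fun j hjn => ?_⟩
    rcases Nat.lt_or_ge n j with hlt | hle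
    · obtain rfl : j = n + 1 := by omega
      rw [hE]; exact ⟨hy, hya⟩
    · exact hj j hle

/-- log-convexity -/
lemma ExpData.logconv (h : ExpData E C T a) {y : ℝ} (hy : y ∈ T) (hya : |y| ≤ a)
    (hEy : |E y| ≤ a) : |C y| ^ 2 ≤ |y| * |C (C y)| := by
  apply limit_ineq
  intro n
  obtain ⟨x, hx, hxa, hxy, hj⟩ := h.orbit n y hy hya
  have hj' : ∀ j ≤ n + 1, E^[j] x ∈ T ∧ |E^[j] x| ≤ a := by
    intro j hjn
    rcases Nat.lt_or_ge n j with hlt | hle
    · obtain rfl : j = n + 1 := by omega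
      rw [Function.iterate_succ_apply', hxy]
      exact ⟨h.mapE y hy hya, hEy⟩
    · exact hj j hle
  -- membership and commutation
  have hPQ : ∀ k, (∀ m, m + k ≤ n + 1 → E^[m] (C^[k] x) ∈ T ∧
      |E^[m] (C^[k] x)| ≤ |E^[m + k] x|) ∧
      (∀ m, m + k ≤ n + 1 → C (E^[m] (C^[k] x)) = E^[m] (C^[k + 1] x)) := by
    intro k
    induction k with
    | zero =>
      have hP : ∀ m, m + 0 ≤ n + 1 → E^[m] (C^[0] x) ∈ T ∧
          |E^[m] (C^[0] x)| ≤ |E^[m + 0] x| := by
        intro m hm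
        exact ⟨(hj' m (by omega)).1, le_rfl⟩
      refine ⟨hP, ?_⟩
      intro m
      induction m with
      | zero => intro _; rfl
      | succ m ihm =>
        intro hm
        have e1 : E^[m + 1] (C^[0] x) = E (E^[m] (C^[0] x)) := Function.iterate_succ_apply' _ _ _
        have e2 : E^[m + 1] (C^[0 + 1] x) = E (E^[m] (C^[0 + 1] x)) :=
          Function.iterate_succ_apply' _ _ _
        have b1 := hP m (by omega)
        have b2 := hP (m + 1) (by omega)
        rw [e1, e2, ← ihm (by omega)]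
        symm
        apply h.comm _ b1.1 (b1.2.trans (hj' (m + 0) (by omega)).2)
        rw [← e1]
        exact b2.2.trans (hj' (m + 1 + 0) (by omega)).2
    | succ k ih =>
      obtain ⟨ihP, ihQ⟩ := ih
      have hP : ∀ m, m + (k + 1) ≤ n + 1 → E^[m] (C^[k + 1] x) ∈ T ∧
          |E^[m] (C^[k + 1] x)| ≤ |E^[m + (k + 1)] x| := by
        intro m hm
        have b1 := ihP m (by omega)
        have b2 := ihP (m + 1) (by omega)
        have ba : |E^[m] (C^[k] x)| ≤ a := b1.2.trans (hj' (m + k) (by omega)).2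
        rw [← ihQ m (by omega)]
        refine ⟨h.mapC _ b1.1 ba, ?_⟩
        have hadd := h.add _ b1.1 ba
        rw [← Function.iterate_succ_apply' E m] at hadd
        have : |C (E^[m] (C^[k] x))| ≤ |E^[m + 1] (C^[k] x)| := by
          have := abs_nonneg (E^[m] (C^[k] x))
          linarith
        refine this.trans (b2.2.trans (le_of_eq ?_))
        rw [show m + 1 + k = m + (k + 1) by ring]
      refine ⟨hP, ?_⟩
      intro m
      induction m with
      | zero =>
        intro _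
        exact (Function.iterate_succ_apply' C (k + 1) x).symm
      | succ m ihm =>
        intro hm
        have e1 : E^[m + 1] (C^[k + 1] x) = E (E^[m] (C^[k + 1] x)) :=
          Function.iterate_succ_apply' _ _ _
        have e2 : E^[m + 1] (C^[k + 1 + 1] x) = E (E^[m] (C^[k + 1 + 1] x)) :=
          Function.iterate_succ_apply' _ _ _
        have b1 := hP m (by omega)
        have b2 := hP (m + 1) (by omega)
        rw [e1, e2, ← ihm (by omega)]
        symm
        apply h.comm _ b1.1 (b1.2.trans (hj' (m + (k + 1)) (by omega)).2)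
        rw [← e1]
        exact b2.2.trans (hj' (m + 1 + (k + 1)) (by omega)).2
  have key := array_ineq (fun m k => |E^[m] (C^[k] x)|) n (fun _ _ => abs_nonneg _) (by
    intro m k _ hmk
    have b1 := (hPQ k).1 m hmk
    have ba : |E^[m] (C^[k] x)| ≤ a := b1.2.trans (hj' (m + k) hmk).2
    have hadd := h.add _ b1.1 ba
    rw [← Function.iterate_succ_apply' E m, (hPQ k).2 m hmk] at hadd
    exact hadd)
  have y0 : E^[n] (C^[0] x) = y := hxy
  have y1 : E^[n] (C^[1] x) = C y := by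
    rw [← (hPQ 0).2 n (by omega), y0]
  have y2 : E^[n] (C^[2] x) = C (C y) := by
    rw [← (hPQ 1).2 n (by omega), y1]
  simp only [y0, y1, y2] at key
  linarith [key, mul_comm (((n : ℝ) + 2) * |C (C y)| + |C y|) (((n : ℝ) + 2) * |y| + |C y|)]

end Pool.Agent.H717R2
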