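import Pool.Agent.H717R2.FeqB

/-!
# The expansion lemma, conclusion
-/

namespace Pool.Agent.H717R2

open Set

variable {E C : ℝ → ℝ} {T : Set ℝ} {a : ℝ}

lemma ExpData.mono_sigma (h : ExpData E C T a) {y : ℝ} (hy : y ∈ T) (hya : |y| ≤ a)
    (hEy : |E y| ≤ a) : |C y| * |E y| ≤ |C (E y)| * |y| := by
  have h1 := h.logconv hy hya hEy
  have h2 := h.add y hy hya
  have hCa : |C y| ≤ a := by
    have := abs_nonneg y
    linarith
  have h3 := h.add (C y) (h.mapC y hy hya) hCa
  rw [h.comm y hy hya hEy] at h3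
  rw [h3, h2]
  nlinarith

lemma ExpData.exists_small (h : ExpData E C T a) {r : ℝ} (hr : 0 < r) :
    ∃ b, 0 < b ∧ b ≤ a ∧ ∀ x ∈ T, |x| ≤ b → |E x| ≤ r := by
  have hc : ContinuousAt E 0 := by
    apply h.contE.continuousAt
    exact Icc_mem_nhds (by linarith [h.apos]) h.apos
  have := Metric.continuousAt_iff.mp hc r hr
  obtain ⟨d, hd, hd'⟩ := this
  refine ⟨min a (d / 2), lt_min h.apos (by linarith), min_le_left _ _, fun x _ hx => ?_⟩
  have hx' : |x| ≤ d / 2 := hx.trans (min_le_right _ _)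
  have := @hd' x (by rw [Real.dist_eq, sub_zero]; linarith)
  rw [h.E0, Real.dist_eq, sub_zero] at this
  exact this.le

/-- There is a point where the ratio `|C x|/|x|` is maximal. -/
lemma ExpData.exists_max (h : ExpData E C T a) :
    ∃ b, 0 < b ∧ b ≤ a ∧ (∀ x ∈ T, |x| ≤ b → |E x| ≤ a) ∧
      ∃ M, 0 < M ∧ ∃ x₀ ∈ T, |x₀| ≤ b ∧ |C x₀| = M * |x₀| ∧
        ∀ x ∈ T, |x| ≤ b → |C x| ≤ M * |x| := by
  obtain ⟨b, hb, hba, hEb⟩ := h.exists_small h.apos
  obtain ⟨b', hb', hba', hEb'⟩ := h.exists_small hb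
  set b'' := min b b' with hb''def
  have hb'' : 0 < b'' := lt_min hb hb'
  have hb''b : b'' ≤ b := min_le_left _ _
  refine ⟨b, hb, hba, hEb, ?_⟩
  -- compact annulus
  set K : Set ℝ := (T ∪ {0}) ∩ ({x | b'' ≤ |x|} ∩ Icc (-b) b) with hK
  have hKc : IsCompact K := by
    have h1 : IsClosed ({x : ℝ | b'' ≤ |x|}) := isClosed_le continuous_const continuous_abs
    have h2 : IsCompact ({x : ℝ | b'' ≤ |x|} ∩ Icc (-b) b) := isCompact_Icc.inter_left h1
    exact h2.inter_left h.closed
  have hKT : ∀ x ∈ K, x ∈ T ∧ b'' ≤ |x| ∧ |x| ≤ b := by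
    rintro x ⟨hx1, hx2, hx3⟩
    refine ⟨?_, hx2, abs_le.mpr hx3⟩
    rcases hx1 with hx1 | hx1
    · exact hx1
    · exfalso
      simp only [mem_singleton_iff] at hx1
      simp only [mem_ofPred_eq, hx1, abs_zero] at hx2
      linarith
  have hTK : ∀ x ∈ T, b'' ≤ |x| → |x| ≤ b → x ∈ K := fun x hx h1 h2 =>
    ⟨Or.inl hx, h1, abs_le.mp h2⟩
  have hKne : K.Nonempty := by
    obtain ⟨t, ht⟩ := h.nonempty
    have htp := h.xpos ht
    refine ⟨b / |t| * t, hTK _ (h.cone t ht _ (div_pos hb htp)) ?_ ?_⟩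
    · rw [abs_mul, abs_of_pos (div_pos hb htp), div_mul_cancel₀ _ htp.ne']
      exact hb''b
    · rw [abs_mul, abs_of_pos (div_pos hb htp), div_mul_cancel₀ _ htp.ne']
  have hcont : ContinuousOn (fun x => |C x| / |x|) K := by
    apply ContinuousOn.div
    · apply ContinuousOn.abs
      apply h.contC.mono
      intro x hx
      have := (hKT x hx).2.2
      exact abs_le.mp (this.trans hba)
    · exact continuous_abs.continuousOn
    · intro x hx
      have := (hKT x hx).2.1
      linarith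
  obtain ⟨x₀, hx₀K, hx₀max⟩ := hKc.exists_isMaxOn hKne hcont
  obtain ⟨hx₀T, hx₀1, hx₀2⟩ := hKT x₀ hx₀K
  have hx₀pos : 0 < |x₀| := h.xpos hx₀T
  set M := |C x₀| / |x₀| with hM
  have hMpos : 0 < M := div_pos (h.Cpos hx₀T (hx₀2.trans hba)) hx₀pos
  have hCx₀ : |C x₀| = M * |x₀| := by rw [hM, div_mul_cancel₀ _ hx₀pos.ne']
  have hmaxK : ∀ x ∈ K, |C x| ≤ M * |x| := by
    intro x hx
    have := hx₀max hx
    simp only [mem_ofPred_eq] at this
    rwa [div_le_iff₀ (h.xpos (hKT x hx).1)] at this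
  refine ⟨M, hMpos, x₀, hx₀T, hx₀2, hCx₀, ?_⟩
  intro x hx hxb
  by_cases hxb' : b'' ≤ |x|
  · exact hmaxK x (hTK x hx hxb' hxb)
  by_contra hcon
  push Not at hcon hxb'
  set c := |C x| / |x| with hc
  have hxpos := h.xpos hx
  have hcM : M < c := by rw [hc, lt_div_iff₀ hxpos]; exact hcon
  have main : ∀ n : ℕ, ∀ z ∈ T, |z| ≤ b'' → c * |z| ≤ |C z| → b'' < (1 + c) ^ n * |z| → False := by
    intro n
    induction n with
    | zero => intro z _ hz1 _ hz2; simp at hz2; linarith
    | succ n ih =>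
      intro z hz hz1 hz2 hz3
      have hzpos := h.xpos hz
      have hzb : |z| ≤ b := hz1.trans hb''b
      have hza : |z| ≤ a := hzb.trans hba
      have hEz := hEb z hz hzb
      have hEz' : |E z| ≤ b := hEb' z hz (hz1.trans (min_le_right _ _))
      have hadd := h.add z hz hza
      have hsig := h.mono_sigma hz hza hEz
      have hET := h.mapE z hz hza
      have hEpos : 0 < |E z| := h.xpos hET
      have h1 : c * |E z| ≤ |C (E z)| := by
        have : c * |z| * |E z| ≤ |C (E z)| * |z| :=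
          (mul_le_mul_of_nonneg_right hz2 hEpos.le).trans hsig
        have h2 : (c * |E z|) * |z| ≤ |C (E z)| * |z| := by linarith [this, mul_right_comm c (|z|) (|E z|)]
        exact le_of_mul_le_mul_right h2 hzpos
      by_cases hcase : b'' ≤ |E z|
      · have h2 := hmaxK _ (hTK _ hET hcase hEz')
        have : c * |E z| ≤ M * |E z| := h1.trans h2
        have := le_of_mul_le_mul_right this hEpos
        linarith
      · push Not at hcase
        refine ih (E z) hET hcase.le h1 ?_
        have h3 : (1 + c) * |z| ≤ |E z| := by rw [hadd]; linarith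
        have h4 : (0 : ℝ) ≤ (1 + c) ^ n := by positivity
        calc b'' < (1 + c) ^ (n + 1) * |z| := hz3
          _ = (1 + c) ^ n * ((1 + c) * |z|) := by ring
          _ ≤ (1 + c) ^ n * |E z| := mul_le_mul_of_nonneg_left h3 h4
  obtain ⟨n, hn⟩ := pow_unbounded_of_one_lt (b'' / |x|) (show (1 : ℝ) < 1 + c by linarith)
  rw [div_lt_iff₀ hxpos] at hn
  exact main n x hx hxb'.le (by rw [hc, div_mul_cancel₀ _ hxpos.ne']) hn

/-- **Expansion lemma.** -/
theorem ExpData.main (h : ExpData E C T a) :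
    ∃ M, 0 < M ∧ ∃ x₀ ∈ T, |x₀| ≤ a ∧ ∀ s, 0 < s → s ≤ 1 → |C (s * x₀)| = M * |s * x₀| := by
  obtain ⟨b, hb, hba, hEb, M, hM, x₀, hx₀T, hx₀b, hx₀, hmax⟩ := h.exists_max
  refine ⟨M, hM, x₀, hx₀T, hx₀b.trans hba, ?_⟩
  intro s hs hs1
  rcases hs1.lt_or_eq with hs1 | rfl
  swap
  · simpa using hx₀
  have hy : s * x₀ ∈ T := h.cone _ hx₀T s hs
  have hx₀pos := h.xpos hx₀T
  have hyx : |s * x₀| < |x₀| := by
    rw [abs_mul, abs_of_pos hs]; nlinarith
  have hyb : |s * x₀| ≤ b := hyx.le.trans hx₀b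
  have hypos := h.xpos hy
  refine le_antisymm (hmax _ hy hyb) ?_
  by_contra hcon
  push Not at hcon
  set c := |C (s * x₀)| / |s * x₀| with hc
  have hcM : c < M := by rw [hc, div_lt_iff₀ hypos]; exact hcon
  have hc0 : 0 ≤ c := by positivity
  -- preimage of a maximal point is maximal
  have pre : ∀ z ∈ T, |z| ≤ b → |C z| = M * |z| →
      ∃ z' ∈ T, |z'| ≤ b ∧ E z' = z ∧ |C z'| = M * |z'| ∧ |z| = (1 + M) * |z'| := by
    intro z hz hzb hzM
    obtain ⟨z', hz'T, hz'a, hz'⟩ := h.surj z hz (hzb.trans hba)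
    have hadd := h.add z' hz'T hz'a
    rw [hz'] at hadd
    have hC' := h.mapC z' hz'T hz'a
    have hz'b : |z'| ≤ b := by
      have := abs_nonneg (C z'); linarith
    have hCz'b : |C z'| ≤ b := by
      have := abs_nonneg z'; linarith
    have hEa : |E z'| ≤ a := by rw [hz']; exact hzb.trans hba
    have hcomm := h.comm z' hz'T hz'a hEa
    have hadd2 := h.add (C z') hC' (hCz'b.trans hba)
    rw [hcomm, hz'] at hadd2
    have m1 := hmax z' hz'T hz'b
    have m2 := hmax (C z') hC' hCz'b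
    have e : |C z'| = M * |z'| := by
      apply le_antisymm m1
      rw [hzM] at hadd2
      nlinarith
    refine ⟨z', hz'T, hz'b, hz', e, ?_⟩
    rw [hadd, e]; ring
  have main : ∀ n : ℕ, ∀ z ∈ T, |z| ≤ b → |C z| = M * |z| → ∀ t, 0 < t → t < 1 →
      |C (t * z)| ≤ c * |t * z| → (1 + M) ^ n * |t * z| ≤ (1 + c) ^ n * |z| := by
    intro n
    induction n with
    | zero =>
      intro z hz _ _ t ht ht1 _
      simp only [pow_zero, one_mul]
      rw [abs_mul, abs_of_pos ht]
      have := h.xpos hz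
      nlinarith
    | succ n ih =>
      intro z hz hzb hzM t ht ht1 htC
      obtain ⟨z', hz'T, hz'b, hz', hz'M, hz'abs⟩ := pre z hz hzb hzM
      have hz'a : |z'| ≤ a := hz'b.trans hba
      -- IVT
      have hcontp : ContinuousOn (fun u : ℝ => E (u * z')) (Icc 0 1) := by
        apply h.contE.comp (by fun_prop)
        intro u hu
        rw [mem_Icc, ← abs_le, abs_mul]
        have : |u| ≤ 1 := abs_le.mpr ⟨by linarith [hu.1], hu.2⟩
        have := abs_nonneg z'
        nlinarith
      have hivt : t * z ∈ (fun u : ℝ => E (u * z')) '' (uIcc 0 1) := by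
        apply intermediate_value_uIcc
        · rwa [uIcc_of_le zero_le_one]
        · simp only [zero_mul, one_mul, h.E0, hz']
          rcases le_total 0 z with hz0 | hz0
          · rw [uIcc_of_le hz0]; constructor
            · positivity
            · nlinarith
          · rw [uIcc_of_ge hz0]; constructor
            · nlinarith
            · nlinarith
      obtain ⟨u, hu, huE⟩ := hivt
      rw [uIcc_of_le zero_le_one] at hu
      simp only at huE
      have htz : t * z ≠ 0 := h.ne0 _ (h.cone z hz t ht)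
      have hu0 : 0 < u := by
        rcases hu.1.lt_or_eq with h0 | h0
        · exact h0
        · exfalso; rw [← h0, zero_mul, h.E0] at huE; exact htz huE.symm
      have hu1 : u < 1 := by
        rcases hu.2.lt_or_eq with h0 | h0
        · exact h0
        · exfalso
          rw [h0, one_mul, hz'] at huE
          have hz0 : z ≠ 0 := h.ne0 _ hz
          have : (1 - t) * z = 0 := by linarith
          rcases mul_eq_zero.mp this with h1 | h1
          · linarith
          · exact hz0 h1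
      have hy'T : u * z' ∈ T := h.cone _ hz'T u hu0
      have hy'b : |u * z'| ≤ b := by
        rw [abs_mul, abs_of_pos hu0]
        have := abs_nonneg z'
        nlinarith
      have hy'a := hy'b.trans hba
      have hadd := h.add _ hy'T hy'a
      have hsig := h.mono_sigma hy'T hy'a (hEb _ hy'T hy'b)
      rw [huE] at hadd hsig
      have hy'pos := h.xpos hy'T
      have htzpos : 0 < |t * z| := abs_pos.mpr htz
      have hC' : |C (u * z')| ≤ c * |u * z'| := by
        have h1 : |C (u * z')| * |t * z| ≤ c * |t * z| * |u * z'| :=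
          hsig.trans (mul_le_mul_of_nonneg_right htC hy'pos.le)
        have h2 : |C (u * z')| * |t * z| ≤ (c * |u * z'|) * |t * z| := by
          linarith [mul_right_comm c (|t * z|) (|u * z'|)]
        exact le_of_mul_le_mul_right h2 htzpos
      have ihn := ih z' hz'T hz'b hz'M u hu0 hu1 hC'
      have e1 : |t * z| ≤ (1 + c) * |u * z'| := by rw [hadd]; linarith
      have p1 : (0 : ℝ) ≤ (1 + M) ^ (n + 1) := by positivity
      calc (1 + M) ^ (n + 1) * |t * z| ≤ (1 + M) ^ (n + 1) * ((1 + c) * |u * z'|) :=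
            mul_le_mul_of_nonneg_left e1 p1
        _ = ((1 + M) * (1 + c)) * ((1 + M) ^ n * |u * z'|) := by ring
        _ ≤ ((1 + M) * (1 + c)) * ((1 + c) ^ n * |z'|) :=
            mul_le_mul_of_nonneg_left ihn (by positivity)
        _ = (1 + c) ^ (n + 1) * ((1 + M) * |z'|) := by ring
        _ = (1 + c) ^ (n + 1) * |z| := by rw [hz'abs]
  have hq : 1 < (1 + M) / (1 + c) := by
    rw [one_lt_div (by linarith)]; linarith
  obtain ⟨n, hn⟩ := pow_unbounded_of_one_lt (|x₀| / |s * x₀|) hq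
  have := main n x₀ hx₀T hx₀b hx₀ s hs hs1 (by rw [hc, div_mul_cancel₀ _ hypos.ne'])
  rw [div_lt_iff₀ hypos, div_pow, div_mul_eq_mul_div, lt_div_iff₀ (by positivity)] at hn
  linarith [mul_comm (|x₀|) ((1 + c) ^ n)]

end Pool.Agent.H717R2
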