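import Pool.Agent.H717R2.FeqC

/-!
# Solutions of `f (x + f x) = f x + f (f x)`: one-sided lemmas
-/

namespace Pool.Agent.H717R2

open Set

structure Sol (f : ℝ → ℝ) : Prop where
  cont : Continuous f
  eq : ∀ x, f (x + f x) = f x + f (f x)

variable {f : ℝ → ℝ}

lemma Sol.zero (h : Sol f) : f 0 = 0 := by
  have := h.eq 0
  rw [zero_add] at this
  linarith

lemma Sol.flip (h : Sol f) : Sol (fun x => -f (-x)) := by
  refine ⟨by have := h.cont; fun_prop, fun x => ?_⟩
  have := h.eq (-x)
  have e : -(x + -f (-x)) = -x + f (-x) := by ring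
  simp only [e, this, neg_neg]
  ring

/-- extension principle -/
lemma ext_all (D : ℝ → ℝ) (hD : Continuous D) (A0 : ℝ) (hA0 : 0 < A0)
    (h0 : ∀ y, |y| ≤ A0 → D y = 0)
    (hext : ∀ A, A0 ≤ A → (∀ y, |y| ≤ A → D y = 0) → ∃ δ, 0 < δ ∧ ∀ y, |y| ≤ A + δ → D y = 0) :
    ∀ y, D y = 0 := by
  intro x
  by_contra hx
  set S : Set ℝ := {A | A0 ≤ A ∧ ∀ y, |y| ≤ A → D y = 0} with hS
  have hA0S : A0 ∈ S := ⟨le_rfl, h0⟩
  have hbdd : BddAbove S := by
    refine ⟨|x|, fun A hA => ?_⟩
    by_contra hlt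
    push Not at hlt
    exact hx (hA.2 x hlt.le)
  set B := sSup S with hB
  have hA0B : A0 ≤ B := le_csSup hbdd hA0S
  have hlt : ∀ y, |y| < B → D y = 0 := by
    intro y hy
    obtain ⟨A, hA, hyA⟩ := exists_lt_of_lt_csSup ⟨A0, hA0S⟩ hy
    exact hA.2 y hyA.le
  have hle : ∀ y, |y| ≤ B → D y = 0 := by
    have hcl : IsClosed {y | D y = 0} := isClosed_eq hD continuous_const
    have hsub : Ioo (-B) B ⊆ {y | D y = 0} := fun y hy => hlt y (abs_lt.mpr hy)
    have := closure_minimal hsub hcl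
    rw [closure_Ioo (by linarith : (-B) ≠ B)] at this
    intro y hy
    exact this (abs_le.mp hy)
  obtain ⟨δ, hδ, hδ'⟩ := hext B hA0B hle
  have : B + δ ∈ S := ⟨by linarith, hδ'⟩
  have := le_csSup hbdd this
  linarith

lemma Sol.L1 (h : Sol f) {ε : ℝ} (hε : 0 < ε) (hpos : ∀ x, 0 < x → x < ε → 0 < f x) :
    ∃ M, 0 < M ∧ ∀ x, 0 ≤ x → f x = M * x := by
  have hf := h.cont
  have hdata : ExpData (fun x => x + f x) f (Ioi 0) (ε / 2) := by
    refine ⟨by linarith, by fun_prop, by fun_prop, by simp [h.zero], fun x hx => ne_of_gt hx,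
      fun x hx s hs => mul_pos hs hx, ⟨1, mem_Ioi.mpr one_pos⟩, ?_, ?_, ?_, ?_, ?_, ?_⟩
    · have : (Ioi (0 : ℝ)) ∪ {0} = Ici 0 := by
        rw [union_singleton, Ioi_insert]
      rw [this]; exact isClosed_Ici
    · intro x hx hxa
      have hx0 : 0 < x := hx
      rw [abs_of_pos hx0] at hxa
      have := hpos x hx0 (by linarith)
      show 0 < x + f x
      linarith
    · intro x hx hxa
      have hx0 : 0 < x := hx
      rw [abs_of_pos hx0] at hxa
      exact hpos x hx0 (by linarith)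
    · intro x hx hxa
      have hx0 : 0 < x := hx
      rw [abs_of_pos hx0] at hxa
      have := hpos x hx0 (by linarith)
      rw [abs_of_pos hx0, abs_of_pos this, abs_of_pos (by linarith)]
    · intro x _ _ _
      exact (h.eq x).symm
    · intro y hy hya
      have hy0 : 0 < y := hy
      rw [abs_of_pos hy0] at hya
      have hfa := hpos (ε / 2) (by linarith) (by linarith)
      have : y ∈ Icc ((fun x => x + f x) 0) ((fun x => x + f x) (ε / 2)) := by
        simp only [h.zero, add_zero]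
        exact ⟨hy0.le, by linarith⟩
      obtain ⟨z, hz, hzy⟩ := intermediate_value_Icc (by linarith : (0 : ℝ) ≤ ε / 2)
        (by fun_prop : ContinuousOn (fun x => x + f x) (Icc 0 (ε / 2))) this
      have hz0 : z ≠ 0 := by
        rintro rfl
        simp only [h.zero, add_zero] at hzy
        linarith
      have hzpos : 0 < z := lt_of_le_of_ne hz.1 (Ne.symm hz0)
      exact ⟨z, hzpos, by rw [abs_of_pos hzpos]; exact hz.2, hzy⟩
  obtain ⟨M, hM, x₀, hx₀, hx₀a, hmain⟩ := hdata.main
  have hx₀p : 0 < x₀ := hx₀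
  rw [abs_of_pos hx₀p] at hx₀a
  refine ⟨M, hM, ?_⟩
  have hlin : ∀ x, 0 ≤ x → x ≤ x₀ → f x = M * x := by
    intro x hx0 hx1
    rcases hx0.eq_or_lt with rfl | hx0
    · rw [h.zero]; ring
    have := hmain (x / x₀) (div_pos hx0 hx₀p) (by rw [div_le_one hx₀p]; exact hx1)
    rw [div_mul_cancel₀ _ hx₀p.ne', abs_of_pos hx0, abs_of_pos (hpos x hx0 (by linarith))] at this
    exact this
  have key := ext_all (fun y => f |y| - M * |y|) (by fun_prop) x₀ hx₀p
    (fun y hy => by
      show f |y| - M * |y| = 0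
      rw [hlin _ (abs_nonneg y) hy]; ring) (by
    intro A hA hAD
    have hA' : ∀ x, 0 ≤ x → x ≤ A → f x = M * x := by
      intro x hx0 hx1
      have := hAD x (by rwa [abs_of_nonneg hx0])
      simp only [abs_of_nonneg hx0] at this
      linarith
    have hmax : 0 < max 1 M := lt_max_of_lt_left one_pos
    have hApos : 0 < A := by linarith
    have hlt : max 1 M < 1 + M := max_lt (by linarith) (by linarith)
    refine ⟨A * (1 + M) / max 1 M - A, ?_, ?_⟩
    · rw [sub_pos, lt_div_iff₀ hmax]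
      exact mul_lt_mul_of_pos_left hlt hApos
    · intro y hy
      show f |y| - M * |y| = 0
      have hy1 : |y| ≤ A * (1 + M) / max 1 M := by linarith
      set x := |y| / (1 + M) with hx
      have hM1 : (0 : ℝ) < 1 + M := by linarith
      have hyx : |y| = (1 + M) * x := by rw [hx]; field_simp
      have hx0 : 0 ≤ x := div_nonneg (abs_nonneg _) hM1.le
      have hxm : x * max 1 M ≤ A := by
        rw [le_div_iff₀ hmax] at hy1
        rw [hyx] at hy1
        have : (x * max 1 M) * (1 + M) ≤ A * (1 + M) := by linarith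
        exact le_of_mul_le_mul_right this hM1
      have hxA : x ≤ A := le_trans (by nlinarith [le_max_left 1 M]) hxm
      have hMxA : M * x ≤ A := le_trans (by nlinarith [le_max_right 1 M]) hxm
      have e := h.eq x
      rw [hA' x hx0 hxA, hA' (M * x) (by positivity) hMxA] at e
      have e' : x + M * x = |y| := by rw [hyx]; ring
      rw [e'] at e
      rw [e, hyx]; ring)
  intro x hx
  have := key x
  simp only [abs_of_nonneg hx] at this
  linarith

/-- `D = f - c id` satisfies `D (g x) = D x + D (f x)`; linear on the left half line implies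
nonnegative on the right. -/
lemma Sol.L3 (h : Sol f) {b : ℝ} (hb : 0 ≤ b) (hlin : ∀ x, x ≤ 0 → f x = b * x) :
    ∀ x, 0 < x → 0 ≤ f x := by
  intro x₀ hx₀
  by_contra hneg
  push Not at hneg
  -- orbit
  set g : ℝ → ℝ := fun x => x + f x with hg
  have step : ∀ x, f x < 0 → f (g x) - b * g x = f x - b * x := by
    intro x hx
    have e := h.eq x
    rw [hlin (f x) hx.le] at e
    simp only [hg]
    rw [e]; ring
  have inv : ∀ n : ℕ, 0 < g^[n] x₀ ∧ f (g^[n] x₀) - b * g^[n] x₀ = f x₀ - b * x₀ ∧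
      g^[n] x₀ ≤ x₀ + n * f x₀ := by
    intro n
    induction n with
    | zero => simp [hx₀]
    | succ n ih =>
      obtain ⟨i1, i2, i3⟩ := ih
      have hle : g^[n] x₀ ≤ x₀ := by
        have : (n : ℝ) * f x₀ ≤ 0 := mul_nonpos_of_nonneg_of_nonpos (Nat.cast_nonneg _) hneg.le
        linarith
      have hfle : f (g^[n] x₀) ≤ f x₀ := by
        have : b * g^[n] x₀ ≤ b * x₀ := mul_le_mul_of_nonneg_left hle hb
        linarith
      have hfneg : f (g^[n] x₀) < 0 := lt_of_le_of_lt hfle hneg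
      have hstep := step _ hfneg
      rw [Function.iterate_succ_apply']
      refine ⟨?_, by rw [hstep, i2], ?_⟩
      · by_contra hnp
        push Not at hnp
        have := hlin _ hnp
        rw [this, i2] at hstep
        have : 0 ≤ b * x₀ := by positivity
        linarith
      · have : g (g^[n] x₀) = g^[n] x₀ + f (g^[n] x₀) := rfl
        rw [this]
        push_cast
        linarith
  obtain ⟨n, hn⟩ := exists_nat_gt (x₀ / (-f x₀))
  rw [div_lt_iff₀ (by linarith)] at hn
  have := (inv n).1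
  have := (inv n).2.2
  linarith

lemma Sol.L3' (h : Sol f) {a : ℝ} (ha : 0 ≤ a) (hlin : ∀ x, 0 ≤ x → f x = a * x) :
    ∀ x, x < 0 → f x ≤ 0 := by
  intro x hx
  have := h.flip.L3 ha (fun y hy => by
    show -f (-y) = a * y
    rw [hlin (-y) (by linarith)]; ring) (-x) (by linarith)
  simp only [neg_neg] at this
  linarith

lemma Sol.iter (h : Sol f) {x w : ℝ} (hx : f x = w) (hw : f w = 0) (n : ℕ) :
    f (x + n * w) = w := by
  induction n with
  | zero => simpa using hx
  | succ n ih =>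
    have := h.eq (x + n * w)
    rw [ih, hw] at this
    have e : x + ((n + 1 : ℕ) : ℝ) * w = x + n * w + w := by push_cast; ring
    rw [e, this]; ring

/-- zeros accumulating at `0` from the right -/
lemma Sol.L4 (h : Sol f) (hz : ∀ ε > 0, ∃ z, 0 < z ∧ z < ε ∧ f z = 0) {p X : ℝ} (hp : f p = 0)
    (hpX : p < X) : f X ≤ 0 := by
  by_contra hcon
  push Not at hcon
  -- continuity at X
  obtain ⟨δ, hδ, hδ'⟩ := Metric.continuous_iff.mp h.cont X (f X / 2) (by linarith)
  obtain ⟨z, hz0, hz1, hfz⟩ := hz (min (f X / 2) (δ / 2)) (lt_min (by linarith) (by linarith))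
  have hz2 : z < f X / 2 := lt_of_lt_of_le hz1 (min_le_left _ _)
  have hz3 : z < δ / 2 := lt_of_lt_of_le hz1 (min_le_right _ _)
  obtain ⟨x, hx, hfx⟩ := intermediate_value_Icc hpX.le h.cont.continuousOn
    (show z ∈ Icc (f p) (f X) from ⟨by rw [hp]; exact hz0.le, by linarith⟩)
  -- choose n = ⌊(X - x)/z⌋
  set n := ⌊(X - x) / z⌋₊ with hn
  have hnn : 0 ≤ (X - x) / z := div_nonneg (by linarith [hx.2]) hz0.le
  have h1 : (n : ℝ) ≤ (X - x) / z := Nat.floor_le hnn
  have h2 : (X - x) / z < n + 1 := Nat.lt_floor_add_one _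
  rw [le_div_iff₀ hz0] at h1
  rw [div_lt_iff₀ hz0] at h2
  have h3 := h.iter hfx hfz n
  have h4 := hδ' (x + n * z) (by
    rw [Real.dist_eq, abs_lt]; constructor <;> linarith)
  rw [h3, Real.dist_eq, abs_lt] at h4
  linarith [h4.1]

lemma Sol.L4' (h : Sol f) (hz : ∀ ε > 0, ∃ z, 0 < z ∧ z < ε ∧ f (-z) = 0) {p X : ℝ} (hp : f p = 0)
    (hpX : X < p) : 0 ≤ f X := by
  have := h.flip.L4 (fun ε hε => by
    obtain ⟨z, h1, h2, h3⟩ := hz ε hε
    exact ⟨z, h1, h2, by simp [h3]⟩) (p := -p) (X := -X) (by simp [hp]) (by linarith)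
  simp only [neg_neg] at this
  linarith

end Pool.Agent.H717R2
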