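import Pool.Agent.H717R2.FeqD

/-!
# Solutions of `f (x + f x) = f x + f (f x)`: the alternating case
-/

namespace Pool.Agent.H717R2

open Set

variable {f : ℝ → ℝ}

lemma sign_const (g : ℝ → ℝ) (hg : Continuous g) {u v : ℝ} (hne : ∀ x ∈ uIcc u v, g x ≠ 0)
    (hu : 0 < g u) : 0 < g v := by
  by_contra hv
  push Not at hv
  have : (0 : ℝ) ∈ uIcc (g u) (g v) := by
    rw [uIcc_of_ge (by linarith)]
    exact ⟨hv, hu.le⟩
  obtain ⟨x, hx, hx0⟩ := intermediate_value_uIcc (hg.continuousOn) this
  exact hne x hx hx0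

lemma sign_const' (g : ℝ → ℝ) (hg : Continuous g) {u v : ℝ} (hne : ∀ x ∈ uIcc u v, g x ≠ 0)
    (hu : g u < 0) : g v < 0 := by
  have := sign_const (fun x => -g x) (by fun_prop) (u := u) (v := v)
    (fun x hx => by simpa using hne x hx) (by simpa using hu)
  simpa using this

lemma comp_interval (g : ℝ → ℝ) (hg : Continuous g) {a b x : ℝ} (hax : a < x) (hxb : x < b)
    (ha : g a = 0) (hb : g b = 0) (hx : 0 < g x) :
    ∃ p q, a ≤ p ∧ p < q ∧ q ≤ b ∧ g p = 0 ∧ g q = 0 ∧ ∀ y, p < y → y < q → 0 < g y := by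
  have hcl : IsClosed {y | g y = 0} := isClosed_eq hg continuous_const
  have c1 : IsCompact (Icc a x ∩ {y | g y = 0}) := isCompact_Icc.inter_right hcl
  have c2 : IsCompact (Icc x b ∩ {y | g y = 0}) := isCompact_Icc.inter_right hcl
  obtain ⟨p, hp⟩ := c1.exists_isGreatest ⟨a, ⟨le_rfl, hax.le⟩, ha⟩
  obtain ⟨q, hq⟩ := c2.exists_isLeast ⟨b, ⟨hxb.le, le_rfl⟩, hb⟩
  have hp0 : g p = 0 := hp.1.2
  have hq0 : g q = 0 := hq.1.2
  have hpx : p < x := lt_of_le_of_ne hp.1.1.2 (by rintro rfl; rw [hp0] at hx; exact lt_irrefl _ hx)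
  have hxq : x < q := lt_of_le_of_ne hq.1.1.1 (by rintro rfl; rw [hq0] at hx; exact lt_irrefl _ hx)
  refine ⟨p, q, hp.1.1.1, hpx.trans hxq, hq.1.1.2, hp0, hq0, fun y hy1 hy2 => ?_⟩
  apply sign_const g hg (u := x) (v := y) _ hx
  intro z hz hz0
  rcases le_total x y with hxy | hxy
  · rw [uIcc_of_le hxy] at hz
    have := hq.2 ⟨⟨hz.1, by linarith [hz.2, hq.1.1.2]⟩, hz0⟩
    linarith [hz.2]
  · rw [uIcc_of_ge hxy] at hz
    have := hp.2 ⟨⟨by linarith [hz.1, hp.1.1.1], hz.2⟩, hz0⟩
    linarith [hz.1]

lemma Sol.comm (h : Sol f) (x : ℝ) : f x + f (f x) = f (x + f x) := (h.eq x).symm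

/-- `f (f x) = x - φ (g x)` -/
lemma Sol.ff (h : Sol f) (x : ℝ) : f (f x) = x - ((x + f x) - f (x + f x)) := by
  have := h.eq x
  linarith

lemma Sol.g_ff (h : Sol f) (x : ℝ) : f (f x) + f (f (f x)) = f (f (x + f x)) := by
  rw [h.comm (f x), h.comm x]

lemma Sol.alpha0 (h : Sol f) {ε p q : ℝ} (hε : ∀ w, w ≠ 0 → |w| < ε → w * f w < 0 ∧ f (f w) ≠ 0)
    (hpq : p < q) (hp : p + f p = 0) (hq : q + f q = 0)
    (hpos : ∀ x, p < x → x < q → 0 < x + f x)
    (hsm : ∀ x, p ≤ x → x ≤ q → |x + f x| < ε) : False := by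
  have hf := h.cont
  have hffq : f (f q) = q := by rw [h.ff q, hq, h.zero]; ring
  -- `F x < x` on `(p,q)`
  have hlt : ∀ x, p < x → x < q → f (f x) < x := by
    intro x h1 h2
    have hg := hpos x h1 h2
    have := (hε _ hg.ne' (hsm x h1.le h2.le)).1
    have hfg : f (x + f x) < 0 := by
      by_contra hcon
      push Not at hcon
      have := mul_nonneg hg.le hcon
      linarith
    rw [h.ff x]; linarith
  have hne : ∀ x, p < x → x < q → f (f x) ≠ p := by
    intro x h1 h2 heq
    have hg := hpos x h1 h2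
    have h3 := (hε _ hg.ne' (hsm x h1.le h2.le)).2
    rw [← h.g_ff x, heq] at h3
    exact h3 hp
  have hgt : ∀ x, p < x → x < q → p < f (f x) := by
    intro x h1 h2
    by_contra hcon
    push Not at hcon
    have : p ∈ Icc ((fun y => f (f y)) x) ((fun y => f (f y)) q) := by
      simp only [hffq]; exact ⟨hcon, hpq.le⟩
    obtain ⟨y, hy, hyp⟩ := intermediate_value_Icc h2.le
      (by fun_prop : ContinuousOn (fun y => f (f y)) (Icc x q)) this
    simp only at hyp
    rcases hy.2.lt_or_eq with hyq | hyq
    · exact hne y (lt_of_lt_of_le h1 hy.1) hyq hyp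
    · rw [hyq, hffq] at hyp; linarith
  -- a collision
  set m := (p + q) / 2 with hm
  have hpm : p < m := by rw [hm]; linarith
  have hmq : m < q := by rw [hm]; linarith
  have hgm := hpos m hpm hmq
  set g : ℝ → ℝ := fun x => x + f x with hg
  have hgc : Continuous g := by fun_prop
  have hgp : g p = 0 := hp
  have hgq : g q = 0 := hq
  have hgm' : 0 < g m := hgm
  obtain ⟨x1, hx1, hgx1⟩ := intermediate_value_Icc hpm.le hgc.continuousOn
    (show g m / 2 ∈ Icc (g p) (g m) by rw [hgp]; constructor <;> linarith)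
  obtain ⟨x2, hx2, hgx2⟩ := intermediate_value_Icc' hmq.le hgc.continuousOn
    (show g m / 2 ∈ Icc (g q) (g m) by rw [hgq]; constructor <;> linarith)
  have hx1p : p < x1 := lt_of_le_of_ne hx1.1 (by rintro rfl; linarith)
  have hx1m : x1 < m := lt_of_le_of_ne hx1.2 (by rintro rfl; linarith)
  have hx2m : m < x2 := lt_of_le_of_ne hx2.1 (by rintro rfl; linarith)
  have hx2q : x2 < q := lt_of_le_of_ne hx2.2 (by rintro rfl; linarith)
  set d := x2 - x1 with hd
  have hd0 : 0 < d := by rw [hd]; linarith
  have hdpq : d < q - p := by rw [hd]; linarith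
  have hcl : IsClosed {x | g x = g (x + d)} := isClosed_eq hgc (by fun_prop)
  have hcomp : IsCompact (Icc p (q - d) ∩ {x | g x = g (x + d)}) := isCompact_Icc.inter_right hcl
  obtain ⟨y, hy⟩ := hcomp.exists_isLeast ⟨x1, ⟨hx1.1, by rw [hd]; linarith⟩, by
    show g x1 = g (x1 + d)
    rw [hd, show x1 + (x2 - x1) = x2 by ring, hgx1, hgx2]⟩
  have hyg : g y = g (y + d) := hy.1.2
  have hyp : p < y := by
    refine lt_of_le_of_ne hy.1.1.1 ?_
    rintro rfl
    rw [hgp] at hyg
    have := hpos (p + d) (by linarith) (by linarith)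
    have e : g (p + d) = p + d + f (p + d) := rfl
    linarith
  have hyq : y < q := by linarith [hy.1.1.2]
  have h1 := hlt y hyp hyq
  have h2 := hgt y hyp hyq
  have e1 : f (f (y + d)) = f (f y) + d := by
    rw [h.ff (y + d), h.ff y]
    have : y + d + f (y + d) = y + f y := hyg.symm
    rw [this]; ring
  have e2 : g (f (f y)) = g (f (f y) + d) := by
    rw [← e1]
    show f (f y) + f (f (f y)) = f (f (y + d)) + f (f (f (y + d)))
    rw [h.g_ff, h.g_ff]
    have : y + d + f (y + d) = y + f y := hyg.symm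
    rw [this]
  have := hy.2 ⟨⟨h2.le, by linarith [hy.1.1.2]⟩, e2⟩
  linarith

lemma Sol.alpha1 (h : Sol f) {ε e : ℝ}
    (hε : ∀ w, w ≠ 0 → |w| < ε → w * f w < 0 ∧ f (f w) ≠ 0)
    (hsm : ∀ x, |x| ≤ e → |x + f x| < ε) {x₀ : ℝ} (hx₀ : 0 < x₀) (hx₀e : x₀ ≤ e)
    (hg : x₀ + f x₀ = 0) : ∀ x, 0 ≤ x → x ≤ x₀ → f x = -x := by
  intro x hx0 hx1
  rcases hx0.eq_or_lt with rfl | hx0
  · rw [h.zero]; simp
  rcases hx1.eq_or_lt with rfl | hx1
  · linarith
  have hf := h.cont
  by_contra hne
  have hne' : x + f x ≠ 0 := fun h0 => hne (by linarith)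
  rcases hne'.lt_or_gt with hneg | hpos
  · -- use the flipped solution
    have hF := h.flip
    obtain ⟨p, q, hap, hpq, hqb, hgp, hgq, hpos'⟩ := comp_interval (fun y => y + -f (-y))
      (by fun_prop) (a := -x₀) (b := 0) (x := -x) (by linarith) (by linarith)
      (by simp only [neg_neg]; linarith) (by simp [h.zero]) (by simp only [neg_neg]; linarith)
    refine hF.alpha0 (ε := ε) ?_ hpq hgp hgq hpos' ?_
    · intro w hw0 hw
      have := hε (-w) (by simpa using hw0) (by rwa [abs_neg])
      refine ⟨by linarith [this.1], ?_⟩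
      simp only [neg_neg, ne_eq, neg_eq_zero]
      exact this.2
    · intro y hy1 hy2
      have := hsm (-y) (by rw [abs_neg, abs_le]; constructor <;> linarith)
      rw [← abs_neg]
      convert this using 2
      ring
  · obtain ⟨p, q, hap, hpq, hqb, hgp, hgq, hpos'⟩ := comp_interval (fun y => y + f y)
      (by fun_prop) (a := 0) (b := x₀) (x := x) hx0 hx1
      (by simp [h.zero]) hg hpos
    exact h.alpha0 hε hpq hgp hgq hpos' (fun y hy1 hy2 => hsm y (by
      rw [abs_le]; constructor <;> linarith))

/-- iteration for `f = -id` near zero -/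
lemma Sol.iter2 (h : Sol f) {A : ℝ} (hlin : ∀ x, |x| ≤ A → f x = -x) {x η : ℝ} (hη : |η| ≤ A)
    (hx : x + f x = -η) (n : ℕ) : (x + n * (2 * η)) + f (x + n * (2 * η)) = -η := by
  induction n with
  | zero => simpa using hx
  | succ n ih =>
    set z := x + n * (2 * η) with hz
    have e : x + ((n + 1 : ℕ) : ℝ) * (2 * η) = z + 2 * η := by rw [hz]; push_cast; ring
    rw [e]
    -- f (f z) = z + 2η
    have h1 : f (-η) = η := by rw [hlin (-η) (by rwa [abs_neg])]; ring
    have h2 : f (f z) = z + 2 * η := by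
      rw [h.ff z, ih, h1]; ring
    have h3 := h.g_ff z
    rw [ih, h1, h2, hlin η hη] at h3
    exact h3

lemma Sol.alpha2_right (h : Sol f) {A : ℝ} (hA : 0 < A) (hlin : ∀ x, |x| ≤ A → f x = -x) :
    ∀ X, A < X → f X = -X := by
  intro X hX
  have hf := h.cont
  set g : ℝ → ℝ := fun x => x + f x with hg
  have hgc : Continuous g := by fun_prop
  have hgA : g A = 0 := by
    show A + f A = 0
    rw [hlin A (by rw [abs_of_pos hA])]; ring
  by_contra hne
  have hne' : g X ≠ 0 := fun h0 => hne (by
    have : X + f X = 0 := h0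
    linarith)
  rcases hne'.lt_or_gt with hneg | hpos
  · obtain ⟨δ, hδ, hδ'⟩ := Metric.continuous_iff.mp hgc X (-g X / 2) (by linarith)
    set η := min (min (-g X / 4) (δ / 4)) A with hηdef
    have hη0 : 0 < η := lt_min (lt_min (by linarith) (by linarith)) hA
    have hη1 : η ≤ -g X / 4 := (min_le_left _ _).trans (min_le_left _ _)
    have hη2 : η ≤ δ / 4 := (min_le_left _ _).trans (min_le_right _ _)
    have hη3 : η ≤ A := min_le_right _ _
    obtain ⟨x, hx, hgx⟩ := intermediate_value_Icc' hX.le hgc.continuousOn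
      (show -η ∈ Icc (g X) (g A) by rw [hgA]; constructor <;> linarith)
    set n := ⌊(X - x) / (2 * η)⌋₊ with hn
    have hnn : 0 ≤ (X - x) / (2 * η) := div_nonneg (by linarith [hx.2]) (by linarith)
    have h1 : (n : ℝ) ≤ (X - x) / (2 * η) := Nat.floor_le hnn
    have h2 : (X - x) / (2 * η) < n + 1 := Nat.lt_floor_add_one _
    rw [le_div_iff₀ (by linarith)] at h1
    rw [div_lt_iff₀ (by linarith)] at h2
    have h3 : g (x + n * (2 * η)) = -η := h.iter2 hlin (by rwa [abs_of_pos hη0]) hgx n
    have h4 := hδ' (x + n * (2 * η)) (by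
      rw [Real.dist_eq, abs_lt]; constructor <;> linarith)
    rw [h3, Real.dist_eq, abs_lt] at h4
    linarith [h4.2]
  · set η := min (g X) A with hηdef
    have hη0 : 0 < η := lt_min hpos hA
    have hη1 : η ≤ g X := min_le_left _ _
    have hη3 : η ≤ A := min_le_right _ _
    obtain ⟨x, hx, hgx⟩ := intermediate_value_Icc hX.le hgc.continuousOn
      (show η ∈ Icc (g A) (g X) by rw [hgA]; constructor <;> linarith)
    set n := ⌈(x - A) / (2 * η)⌉₊ with hn
    have hnn : 0 ≤ (x - A) / (2 * η) := div_nonneg (by linarith [hx.1]) (by linarith)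
    have h1 : (x - A) / (2 * η) ≤ n := Nat.le_ceil _
    have h2 : (n : ℝ) < (x - A) / (2 * η) + 1 := Nat.ceil_lt_add_one hnn
    rw [div_le_iff₀ (by linarith)] at h1
    have h2' : (n : ℝ) - 1 < (x - A) / (2 * η) := by linarith
    rw [lt_div_iff₀ (by linarith)] at h2'
    have h3 := h.iter2 hlin (x := x) (η := -η) (by rw [abs_neg, abs_of_pos hη0]; exact hη3)
      (by rw [neg_neg]; exact hgx) n
    have h4 := hlin (x + n * (2 * -η)) (by
      rw [abs_le]; constructor <;> nlinarith)
    rw [h4] at h3
    linarith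

lemma Sol.alpha2 (h : Sol f) {A : ℝ} (hA : 0 < A) (hlin : ∀ x, |x| ≤ A → f x = -x) :
    ∀ x, f x = -x := by
  intro x
  rcases le_or_gt |x| A with hx | hx
  · exact hlin x hx
  rcases le_total 0 x with h0 | h0
  · rw [abs_of_nonneg h0] at hx
    exact h.alpha2_right hA hlin x hx
  · rw [abs_of_nonpos h0] at hx
    have := h.flip.alpha2_right hA (fun y hy => by
      show -f (-y) = -y
      rw [hlin (-y) (by rwa [abs_neg])]; ring) (-x) hx
    simp only [neg_neg] at this
    linarith

/-- linear with negative slope near `0+` implies linear. -/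
lemma Sol.gamma (h : Sol f) {β A : ℝ} (hβ : 0 < β) (hA : 0 < A)
    (hlin : ∀ x, 0 ≤ x → x ≤ A → f x = -β * x) : ∀ x, f x = -β * x := by
  have hf := h.cont
  have hDc : Continuous (fun x => f x + β * x) := by fun_prop
  -- `D (g x) = D x + D (f x)`
  have hD : ∀ x, f (x + f x) + β * (x + f x) = (f x + β * x) + (f (f x) + β * f x) := by
    intro x; rw [h.eq x]; ring
  -- linear on the left near zero
  have hleft : ∃ A', 0 < A' ∧ ∀ x, |x| ≤ A' → f x = -β * x := by
    rcases lt_or_ge β 1 with hβ1 | hβ1
    · refine ⟨β * A, by positivity, fun x hx => ?_⟩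
      rw [abs_le] at hx
      rcases le_total 0 x with h0 | h0
      · exact hlin x h0 (by nlinarith)
      · -- x = -β y, y = -x/β
        set y := -x / β with hy
        have hxy : x = -β * y := by rw [hy]; field_simp
        have hy0 : 0 ≤ y := div_nonneg (by linarith) hβ.le
        have hyA : y ≤ A := by rw [hy, div_le_iff₀ hβ]; linarith
        have e := h.eq y
        rw [hlin y hy0 hyA, hlin (y + -β * y) (by nlinarith) (by nlinarith)] at e
        rw [hxy]; linarith
    · refine ⟨A, hA, fun x hx => ?_⟩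
      rw [abs_le] at hx
      rcases le_total 0 x with h0 | h0
      · exact hlin x h0 hx.2
      · set κ := (β - 1) / β with hκ
        have hκ0 : 0 ≤ κ := div_nonneg (by linarith) hβ.le
        have hκ1 : κ < 1 := by rw [hκ, div_lt_one hβ]; linarith
        have step : ∀ y, -(β * A) ≤ y → y ≤ 0 → f y + β * y = f (κ * y) + β * (κ * y) := by
          intro y hy1 hy2
          set t := -y / β with ht
          have hyt : y = -β * t := by rw [ht]; field_simp
          have ht0 : 0 ≤ t := div_nonneg (by linarith) hβ.le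
          have htA : t ≤ A := by rw [ht, div_le_iff₀ hβ]; linarith
          have e := hD t
          rw [hlin t ht0 htA] at e
          have e1 : t + -β * t = κ * y := by rw [hκ, hyt]; field_simp; ring
          rw [e1, ← hyt] at e
          linarith
        have hiter : ∀ n : ℕ, f x + β * x = f (κ ^ n * x) + β * (κ ^ n * x) := by
          intro n
          induction n with
          | zero => simp
          | succ n ih =>
            have hp0 : (0 : ℝ) ≤ κ ^ n := by positivity
            have hp1 : κ ^ n ≤ 1 := pow_le_one₀ hκ0 hκ1.le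
            rw [ih, step (κ ^ n * x) (by nlinarith) (by nlinarith)]
            ring_nf
        have hlim : Filter.Tendsto (fun n : ℕ => f (κ ^ n * x) + β * (κ ^ n * x)) Filter.atTop
            (nhds (f (0 * x) + β * (0 * x))) :=
          (hDc.tendsto _).comp ((tendsto_pow_atTop_nhds_zero_of_lt_one hκ0 hκ1).mul_const x)
        have hconst : Filter.Tendsto (fun n : ℕ => f (κ ^ n * x) + β * (κ ^ n * x)) Filter.atTop
            (nhds (f x + β * x)) := by
          simp_rw [← hiter]; exact tendsto_const_nhds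
        have := tendsto_nhds_unique hconst hlim
        rw [zero_mul, h.zero] at this
        linarith
  obtain ⟨A', hA', hlin'⟩ := hleft
  rcases lt_trichotomy β 1 with hβ1 | hβ1 | hβ1
  · -- β < 1
    have key := ext_all (fun x => f x + β * x) hDc A' hA' (fun y hy => by
      show f y + β * y = 0
      rw [hlin' y hy]; ring) (by
      intro B hB hBD
      have hBpos : 0 < B := by linarith
      -- neighbourhoods of B and -B
      have hloc : ∀ c, |c| ≤ B → c ≠ 0 → ∃ δ, 0 < δ ∧ ∀ y, |y - c| < δ → f y + β * y = 0 := by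
        intro c hc hc0
        have hfc : f c = -β * c := by have := hBD c hc; linarith
        have hcpos : 0 < |c| := abs_pos.mpr hc0
        have o1 : ∀ᶠ y in nhds c, |f y| < B := by
          have : |f c| < B := by
            rw [hfc, neg_mul, abs_neg, abs_mul, abs_of_pos hβ]; nlinarith
          exact (by fun_prop : Continuous fun y => |f y|).continuousAt.eventually_lt
            continuousAt_const this
        have o2 : ∀ᶠ y in nhds c, |y + f y| < B := by
          have : |c + f c| < B := by
            rw [hfc, show c + -β * c = (1 - β) * c by ring, abs_mul,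
              abs_of_pos (by linarith : 0 < 1 - β)]; nlinarith
          exact (by fun_prop : Continuous fun y => |y + f y|).continuousAt.eventually_lt
            continuousAt_const this
        obtain ⟨δ, hδ, hδ'⟩ := Metric.eventually_nhds_iff.mp (o1.and o2)
        refine ⟨δ, hδ, fun y hy => ?_⟩
        obtain ⟨h1, h2⟩ := hδ' (by rwa [Real.dist_eq])
        have e := hD y
        have e1 := hBD (f y) h1.le
        have e2 := hBD (y + f y) h2.le
        linarith
      obtain ⟨δ1, hδ1, h1⟩ := hloc B (by rw [abs_of_pos hBpos]) hBpos.ne'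
      obtain ⟨δ2, hδ2, h2⟩ := hloc (-B) (by rw [abs_neg, abs_of_pos hBpos])
        (by simpa using hBpos.ne')
      refine ⟨min δ1 δ2 / 2, by have := lt_min hδ1 hδ2; linarith, fun y hy => ?_⟩
      have m1 := min_le_left δ1 δ2
      have m2 := min_le_right δ1 δ2
      rcases le_or_gt |y| B with hyB | hyB
      · exact hBD y hyB
      rcases le_total 0 y with h0 | h0
      · rw [abs_of_nonneg h0] at hy hyB
        exact h1 y (by rw [abs_lt]; constructor <;> linarith)
      · rw [abs_of_nonpos h0] at hy hyB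
        exact h2 y (by rw [abs_lt]; constructor <;> linarith))
    intro x
    have := key x
    linarith
  · subst hβ1
    intro x
    have := h.alpha2 hA' (fun y hy => by rw [hlin' y hy]; ring) x
    rw [this]; ring
  · -- β > 1
    have key := ext_all (fun x => f x + β * x) hDc A' hA' (fun y hy => by
      show f y + β * y = 0
      rw [hlin' y hy]; ring) (by
      intro B hB hBD
      have hBpos : 0 < B := by linarith
      have hq1 : 1 < β / (β - 1) := by rw [one_lt_div (by linarith)]; linarith
      set q := min β (β / (β - 1)) with hq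
      have hq1' : 1 < q := lt_min hβ1 hq1
      refine ⟨q * B - B, by nlinarith, fun y hy => ?_⟩
      have hyq : |y| ≤ q * B := by linarith
      set t := -y / β with ht
      have hyt : y = -β * t := by rw [ht]; field_simp
      have habs : |y| = β * |t| := by rw [hyt, neg_mul, abs_neg, abs_mul, abs_of_pos hβ]
      have ht1 : |t| ≤ B := by
        have : q * B ≤ β * B := mul_le_mul_of_nonneg_right (min_le_left _ _) hBpos.le
        have : β * |t| ≤ β * B := by linarith
        exact le_of_mul_le_mul_left this hβ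
      have ht2 : (β - 1) * |t| ≤ B := by
        have h1 : q * B ≤ β / (β - 1) * B := mul_le_mul_of_nonneg_right (min_le_right _ _) hBpos.le
        have h2 : β * |t| ≤ β / (β - 1) * B := by linarith
        have h3 : (β - 1) * (β * |t|) ≤ (β - 1) * (β / (β - 1) * B) :=
          mul_le_mul_of_nonneg_left h2 (by linarith)
        have h4 : (β - 1) * (β / (β - 1) * B) = β * B := by
          have : β - 1 ≠ 0 := by linarith
          field_simp
        rw [h4] at h3
        have h5 : β * ((β - 1) * |t|) ≤ β * B := by linarith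
        exact le_of_mul_le_mul_left h5 hβ
      have e := hD t
      have e0 := hBD t ht1
      have hft : f t = y := by rw [hyt]; linarith
      have e1 := hBD (t + f t) (by
        rw [hft, hyt, show t + -β * t = -((β - 1) * t) by ring, abs_neg, abs_mul,
          abs_of_pos (by linarith : 0 < β - 1)]
        exact ht2)
      rw [e1, e0, hft] at e
      show f y + β * y = 0
      linarith)
    intro x
    have := key x
    linarith

lemma Sol.gamma' (h : Sol f) {β A : ℝ} (hβ : 0 < β) (hA : 0 < A)
    (hlin : ∀ x, x ≤ 0 → -A ≤ x → f x = -β * x) : ∀ x, f x = -β * x := by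
  intro x
  have := h.flip.gamma hβ hA (fun y hy1 hy2 => by
    show -f (-y) = -β * y
    rw [hlin (-y) (by linarith) (by linarith)]; ring) (-x)
  simp only [neg_neg] at this
  linarith

end Pool.Agent.H717R2
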