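import Pool.Agent.H717R2.FeqE

/-!
# Solutions of `f (x + f x) = f x + f (f x)`: classification
-/

namespace Pool.Agent.H717R2

open Set

variable {f : ℝ → ℝ}

lemma small_of_cont (u : ℝ → ℝ) (hu : Continuous u) (h0 : u 0 = 0) {r : ℝ} (hr : 0 < r) :
    ∃ d, 0 < d ∧ ∀ x, |x| ≤ d → |u x| < r := by
  obtain ⟨d, hd, hd'⟩ := Metric.continuous_iff.mp hu 0 r hr
  refine ⟨d / 2, by linarith, fun x hx => ?_⟩
  have := hd' x (by rw [Real.dist_eq, sub_zero]; linarith)
  rwa [h0, Real.dist_eq, sub_zero] at this

/-- both signs: `x * f x < 0` and `x * g x < 0` near zero. -/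
lemma Sol.beta2 (h : Sol f) {e : ℝ} (he : 0 < e) (hf : ∀ x, x ≠ 0 → |x| ≤ e → x * f x < 0)
    (hg : ∀ x, x ≠ 0 → |x| ≤ e → x * (x + f x) < 0) : ∃ β, 0 < β ∧ ∀ x, f x = -β * x := by
  have hc := h.cont
  have hdata : ExpData f (fun x => x + f x) {0}ᶜ e := by
    refine ⟨he, by fun_prop, by fun_prop, h.zero, fun x hx => hx, ?_, ⟨1, by simp⟩, ?_, ?_, ?_,
      ?_, ?_, ?_⟩
    · intro x hx s hs
      exact mul_ne_zero hs.ne' hx
    · rw [compl_union_self]; exact isClosed_univ
    · intro x hx hxe h0
      have := hf x hx hxe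
      rw [h0] at this
      simp at this
    · intro x hx hxe h0
      have := hg x hx hxe
      rw [h0] at this
      simp at this
    · intro x hx hxe
      have h1 := hf x hx hxe
      have h2 := hg x hx hxe
      have hx0 : x ≠ 0 := hx
      rcases hx0.lt_or_gt with hx0 | hx0
      · have a1 : 0 < f x := by
          by_contra hcon
          push Not at hcon
          have := mul_nonneg_of_nonpos_of_nonpos hx0.le hcon
          linarith
        have a2 : 0 < x + f x := by
          by_contra hcon
          push Not at hcon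
          have := mul_nonneg_of_nonpos_of_nonpos hx0.le hcon
          linarith
        rw [abs_of_neg hx0, abs_of_pos a1, abs_of_pos a2]; ring
      · have a1 : f x < 0 := by
          by_contra hcon
          push Not at hcon
          have := mul_nonneg hx0.le hcon
          linarith
        have a2 : x + f x < 0 := by
          by_contra hcon
          push Not at hcon
          have := mul_nonneg hx0.le hcon
          linarith
        rw [abs_of_pos hx0, abs_of_neg a1, abs_of_neg a2]; ring
    · intro x _ _ _
      exact h.eq x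
    · intro y hy hye
      have g1 := hg e he.ne' (by rw [abs_of_pos he])
      have g2 := hg (-e) (by simpa using he.ne') (by rw [abs_neg, abs_of_pos he])
      have a1 : f e < -e := by
        by_contra hcon
        push Not at hcon
        have := mul_nonneg he.le (by linarith : 0 ≤ e + f e)
        linarith
      have a2 : e < f (-e) := by
        by_contra hcon
        push Not at hcon
        have := mul_nonneg_of_nonpos_of_nonpos (by linarith : -e ≤ 0) (by linarith : -e + f (-e) ≤ 0)
        linarith
      rw [abs_le] at hye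
      obtain ⟨z, hz, hzy⟩ := intermediate_value_Icc' (by linarith : -e ≤ e) hc.continuousOn
        (show y ∈ Icc (f e) (f (-e)) from ⟨by linarith, by linarith⟩)
      refine ⟨z, ?_, abs_le.mpr hz, hzy⟩
      rintro rfl
      rw [h.zero] at hzy
      exact hy hzy.symm
  obtain ⟨M, hM, x₀, hx₀, hx₀e, hmain⟩ := hdata.main
  refine ⟨1 + M, by linarith, ?_⟩
  have hx₀' : x₀ ≠ 0 := hx₀
  -- the value on the ray
  have hray : ∀ s, 0 < s → s ≤ 1 → f (s * x₀) = -(1 + M) * (s * x₀) := by
    intro s hs hs1
    have h1 := hmain s hs hs1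
    have hsx : s * x₀ ≠ 0 := mul_ne_zero hs.ne' hx₀'
    have hsxe : |s * x₀| ≤ e := by
      rw [abs_mul, abs_of_pos hs]
      have := abs_nonneg x₀
      nlinarith
    have h2 := hg _ hsx hsxe
    rcases hsx.lt_or_gt with h0 | h0
    · have a2 : 0 < s * x₀ + f (s * x₀) := by
        by_contra hcon
        push Not at hcon
        have := mul_nonneg_of_nonpos_of_nonpos h0.le hcon
        linarith
      rw [abs_of_pos a2, abs_of_neg h0] at h1
      linarith
    · have a2 : s * x₀ + f (s * x₀) < 0 := by
        by_contra hcon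
        push Not at hcon
        have := mul_nonneg h0.le hcon
        linarith
      rw [abs_of_neg a2, abs_of_pos h0] at h1
      linarith
  rcases hx₀'.lt_or_gt with hneg | hpos
  · apply h.gamma' (A := -x₀) (by linarith) (by linarith)
    intro x hx1 hx2
    rcases hx1.eq_or_lt with rfl | hx1
    · rw [h.zero]; simp
    have := hray (x / x₀) (div_pos_of_neg_of_neg hx1 hneg) (by
      rw [div_le_one_of_neg hneg]; linarith)
    rwa [div_mul_cancel₀ _ hx₀'] at this
  · apply h.gamma (A := x₀) (by linarith) hpos
    intro x hx1 hx2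
    rcases hx1.eq_or_lt with rfl | hx1
    · rw [h.zero]; simp
    have := hray (x / x₀) (div_pos hx1 hpos) (by rw [div_le_one hpos]; linarith)
    rwa [div_mul_cancel₀ _ hx₀'] at this

/-- `x * f x < 0` and `0 < x * g x` near zero. -/
lemma Sol.beta1 (h : Sol f) {e : ℝ} (he : 0 < e) (hf : ∀ x, x ≠ 0 → |x| ≤ e → x * f x < 0)
    (hg : ∀ x, x ≠ 0 → |x| ≤ e → 0 < x * (x + f x)) : ∃ β, 0 < β ∧ ∀ x, f x = -β * x := by
  have hc := h.cont
  -- sign facts
  have hsgn : ∀ x, x ≠ 0 → |x| ≤ e →
      (0 < x ∧ f x < 0 ∧ 0 < x + f x) ∨ (x < 0 ∧ 0 < f x ∧ x + f x < 0) := by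
    intro x hx0 hxe
    have h1 := hf x hx0 hxe
    have h2 := hg x hx0 hxe
    rcases hx0.lt_or_gt with hx0 | hx0
    · right
      refine ⟨hx0, ?_, ?_⟩
      · by_contra hcon
        push Not at hcon
        have := mul_nonneg_of_nonpos_of_nonpos hx0.le hcon
        linarith
      · by_contra hcon
        push Not at hcon
        have := mul_nonpos_of_nonpos_of_nonneg hx0.le hcon
        linarith
    · left
      refine ⟨hx0, ?_, ?_⟩
      · by_contra hcon
        push Not at hcon
        have := mul_nonneg hx0.le hcon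
        linarith
      · by_contra hcon
        push Not at hcon
        have := mul_nonpos_of_nonneg_of_nonpos hx0.le hcon
        linarith
  have hadd : ∀ x, |x| ≤ e → |x| = |x + f x| + |f x| := by
    intro x hxe
    by_cases hx0 : x = 0
    · subst hx0; simp [h.zero]
    rcases hsgn x hx0 hxe with ⟨h1, h2, h3⟩ | ⟨h1, h2, h3⟩
    · rw [abs_of_pos h1, abs_of_neg h2, abs_of_pos h3]; ring
    · rw [abs_of_neg h1, abs_of_pos h2, abs_of_neg h3]; ring
  set g : ℝ → ℝ := fun x => x + f x with hgdef
  have hgc : Continuous g := by fun_prop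
  have hg0 : g 0 = 0 := by simp [hgdef, h.zero]
  -- injectivity of g near 0
  have hinj : ∀ x y, |x| ≤ e → |y| ≤ e → g x = g y → x = y := by
    intro x y hx hy hxy
    by_contra hne
    wlog hlt : x < y generalizing x y
    · exact this y x hy hx hxy.symm (Ne.symm hne) (lt_of_le_of_ne (not_lt.mp hlt) (Ne.symm hne))
    set d := y - x with hd
    have hd0 : 0 < d := by rw [hd]; linarith
    -- minimise |x| + |x + d| over collisions of gap d
    have hcl : IsClosed {z : ℝ | g z = g (z + d) ∧ |z + d| ≤ e} :=
      (isClosed_eq hgc (hgc.comp (continuous_add_const d))).inter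
        (isClosed_le (continuous_abs.comp (continuous_add_const d)) continuous_const)
    have hcomp : IsCompact (Icc (-e) e ∩ {z : ℝ | g z = g (z + d) ∧ |z + d| ≤ e}) :=
      isCompact_Icc.inter_right hcl
    have hcN : Continuous fun z : ℝ => |z| + |z + d| := by fun_prop
    obtain ⟨z, hz, hzmin⟩ := hcomp.exists_isMinOn
      ⟨x, abs_le.mp hx, by
        constructor
        · rw [hd, show x + (y - x) = y by ring]; exact hxy
        · rw [hd, show x + (y - x) = y by ring]; exact hy⟩
      hcN.continuousOn
    have hze : |z| ≤ e := abs_le.mpr hz.1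
    have hzd : |z + d| ≤ e := hz.2.2
    have hzg : g z = g (z + d) := hz.2.1
    have hzg' : z + f z = z + d + f (z + d) := hzg
    -- image collision: f (z + d) and f z = f (z+d) + d
    have e1 : f (z + d) + d = f z := by linarith
    have e2 : g (f (z + d)) = g (f (z + d) + d) := by
      rw [e1]
      show f (z + d) + f (f (z + d)) = f z + f (f z)
      rw [h.comm, h.comm, hzg']
    have k1 := hadd z hze
    have k2 := hadd (z + d) hzd
    have k3 := abs_nonneg (z + f z)
    have k4 := abs_nonneg (z + d + f (z + d))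
    have mem : f (z + d) ∈ Icc (-e) e ∩ {z : ℝ | g z = g (z + d) ∧ |z + d| ≤ e} := by
      refine ⟨abs_le.mp (by linarith), e2, ?_⟩
      rw [e1]; linarith
    have := hzmin mem
    simp only [mem_ofPred_eq] at this
    rw [e1] at this
    have k5 : |z + f z| + |z + d + f (z + d)| ≤ 0 := by linarith
    have k6 : z + f z = 0 := by
      apply abs_eq_zero.mp; linarith
    have k7 : z + d + f (z + d) = 0 := by
      apply abs_eq_zero.mp; linarith
    have z0 : z = 0 := by
      by_contra hz0
      rcases hsgn z hz0 hze with ⟨_, _, h3⟩ | ⟨_, _, h3⟩ <;> linarith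
    have z1 : z + d = 0 := by
      by_contra hz0
      rcases hsgn (z + d) hz0 hzd with ⟨_, _, h3⟩ | ⟨_, _, h3⟩ <;> linarith
    linarith
  have hgmono : StrictMonoOn g (Icc (-e) e) := by
    apply ContinuousOn.strictMonoOn_of_injOn_Icc (by linarith) _ hgc.continuousOn
    · intro x hx y hy hxy
      exact hinj x y (abs_le.mpr hx) (abs_le.mpr hy) hxy
    · rcases hsgn e he.ne' (by rw [abs_of_pos he]) with ⟨_, _, h3⟩ | ⟨h1, _, _⟩
      · rcases hsgn (-e) (by simpa using he.ne') (by rw [abs_neg, abs_of_pos he]) with
          ⟨h1, _, _⟩ | ⟨_, _, h4⟩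
        · linarith
        · show -e + f (-e) ≤ e + f e
          linarith
      · linarith
  -- extend g to a homeomorphism
  set cl : ℝ → ℝ := fun x => max (-e) (min x e) with hcl
  have hclc : Continuous cl := by fun_prop
  have hclmem : ∀ x, cl x ∈ Icc (-e) e := fun x =>
    ⟨le_max_left _ _, max_le (by linarith) (min_le_right _ _)⟩
  have hclmono : Monotone cl := fun x y hxy => max_le_max le_rfl (min_le_min hxy le_rfl)
  have hclid : ∀ x, |x| ≤ e → cl x = x := by
    intro x hx
    rw [abs_le] at hx
    simp only [hcl]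
    rw [min_eq_left hx.2, max_eq_right hx.1]
  have hcl1 : Monotone (fun x => x - cl x) := by
    intro x y hxy
    simp only [hcl]
    rcases le_total x e with h1 | h1 <;> rcases le_total y e with h2 | h2 <;>
      rcases le_total (-e) x with h3 | h3 <;> rcases le_total (-e) y with h4 | h4 <;>
      simp only [min_eq_left, min_eq_right, h1, h2] <;>
      (try simp only [max_eq_left, max_eq_right, h3, h4, (by linarith : -e ≤ e)]) <;> linarith
  set G : ℝ → ℝ := fun x => g (cl x) + (x - cl x) with hG
  have hGc : Continuous G := by fun_prop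
  have hGmono : StrictMono G := by
    intro x y hxy
    have m1 : cl x ≤ cl y := hclmono hxy.le
    have m2 : x - cl x ≤ y - cl y := hcl1 hxy.le
    rcases m1.eq_or_lt with m1 | m1
    · simp only [hG, m1]; linarith
    · have := hgmono (hclmem x) (hclmem y) m1
      simp only [hG]; linarith
  have hGid : ∀ x, |x| ≤ e → G x = g x := by
    intro x hx
    simp only [hG, hclid x hx]; ring
  have hGtop : Filter.Tendsto G Filter.atTop Filter.atTop := by
    apply Filter.tendsto_atTop_mono' (f₁ := fun x => x + (g e - e))
    · filter_upwards [Filter.eventually_ge_atTop e] with x hx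
      simp only [hG, hcl]
      rw [min_eq_right hx, max_eq_right (by linarith)]
      linarith
    · exact Filter.tendsto_atTop_add_const_right _ _ Filter.tendsto_id
  have hGbot : Filter.Tendsto G Filter.atBot Filter.atBot := by
    refine Filter.tendsto_atBot_mono' (f₂ := G) (f₁ := fun x => x + (g (-e) + e)) _ ?_ ?_
    · filter_upwards [Filter.eventually_le_atBot (-e)] with x hx
      simp only [hG, hcl]
      rw [min_eq_left (by linarith), max_eq_left hx]
      linarith
    · exact Filter.tendsto_atBot_add_const_right _ _ Filter.tendsto_id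
  have hGsurj : Function.Surjective G := hGc.surjective hGtop hGbot
  set iso : ℝ ≃o ℝ := hGmono.orderIsoOfSurjective G hGsurj with hiso
  set H : ℝ → ℝ := fun y => iso.symm y with hH
  have hHc : Continuous H := iso.symm.continuous
  have hGH : ∀ y, G (H y) = y := by
    intro y
    exact iso.apply_symm_apply y
  have hHG : ∀ x, H (G x) = x := by
    intro x
    exact iso.symm_apply_apply x
  have hH0 : H 0 = 0 := by
    have : G 0 = 0 := by rw [hGid 0 (by simpa using he.le), hg0]
    rw [← this, hHG, this]
  -- small radius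
  obtain ⟨r, hr, hr'⟩ := small_of_cont H hHc hH0 he
  set a := min r e with ha
  have ha0 : 0 < a := lt_min hr he
  have hHe : ∀ w, |w| ≤ a → |H w| ≤ e := fun w hw => (hr' w (hw.trans (min_le_left _ _))).le
  have hgH : ∀ w, |w| ≤ a → g (H w) = w := fun w hw => by
    rw [← hGid _ (hHe w hw), hGH]
  have hHne : ∀ w, w ≠ 0 → H w ≠ 0 := by
    intro w hw h0
    apply hw
    rw [← hGH w, h0, hGid 0 (by simpa using he.le), hg0]
  have hdata : ExpData H (fun w => f (H w)) {0}ᶜ a := by
    refine ⟨ha0, hHc.continuousOn, (hc.comp hHc).continuousOn, hH0, fun x hx => hx, ?_,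
      ⟨1, by simp⟩, ?_, ?_, ?_, ?_, ?_, ?_⟩
    · intro x hx s hs
      exact mul_ne_zero hs.ne' hx
    · rw [compl_union_self]; exact isClosed_univ
    · intro w hw hwa
      exact hHne w hw
    · intro w hw hwa h0
      have := hf (H w) (hHne w hw) (hHe w hwa)
      rw [h0] at this
      simp at this
    · intro w hw hwa
      have := hadd (H w) (hHe w hwa)
      have e1 : H w + f (H w) = w := hgH w hwa
      rw [e1] at this
      exact this
    · intro w hw hwa hHwa
      set u := H (H w) with hu
      have hue : |u| ≤ e := hHe _ hHwa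
      have hgu : g u = H w := hgH _ hHwa
      have hfu : |f u| ≤ e := by
        have := hadd u hue
        have := abs_nonneg (u + f u)
        linarith
      have e1 : f (H w) = g (f u) := by
        rw [← hgu]
        exact h.eq u
      show H (f (H w)) = f u
      rw [e1, ← hGid _ hfu, hHG]
    · intro y hy hya
      have hye : |y| ≤ e := hya.trans (min_le_right _ _)
      have hy0 : y ≠ 0 := hy
      refine ⟨g y, ?_, ?_, ?_⟩
      · intro h0
        rcases hsgn y hy0 hye with ⟨_, _, h3⟩ | ⟨_, _, h3⟩
        · have : y + f y = 0 := h0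
          linarith
        · have : y + f y = 0 := h0
          linarith
      · have h1 := hadd y hye
        have h2 := abs_nonneg (f y)
        show |y + f y| ≤ a
        linarith
      · rw [← hGid y hye, hHG]
  obtain ⟨M, hM, w₀, hw₀, hw₀a, hmain⟩ := hdata.main
  have hM1 : (0 : ℝ) < 1 + M := by linarith
  refine ⟨M / (1 + M), div_pos hM hM1, ?_⟩
  have hw₀' : w₀ ≠ 0 := hw₀
  -- the value on the ray
  have hray : ∀ s, 0 < s → s ≤ 1 → f ((1 + M) * (s * w₀)) = -(M * (s * w₀)) := by
    intro s hs hs1
    have h1 : |f (H (s * w₀))| = M * |s * w₀| := hmain s hs hs1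
    have hsw : s * w₀ ≠ 0 := mul_ne_zero hs.ne' hw₀'
    have hswa : |s * w₀| ≤ a := by
      rw [abs_mul, abs_of_pos hs]
      have := abs_nonneg w₀
      nlinarith
    set x := H (s * w₀) with hx
    have hxe : |x| ≤ e := hHe _ hswa
    have hx0 : x ≠ 0 := hHne _ hsw
    have hgx : x + f x = s * w₀ := hgH _ hswa
    rcases hsgn x hx0 hxe with ⟨a1, a2, a3⟩ | ⟨a1, a2, a3⟩
    · rw [hgx] at a3
      rw [abs_of_neg a2, abs_of_pos a3] at h1
      have hfx : f x = -(M * (s * w₀)) := by linarith
      have hxx : x = (1 + M) * (s * w₀) := by linarith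
      rw [← hxx]; exact hfx
    · rw [hgx] at a3
      rw [abs_of_pos a2, abs_of_neg a3] at h1
      have hfx : f x = -(M * (s * w₀)) := by linarith
      have hxx : x = (1 + M) * (s * w₀) := by linarith
      rw [← hxx]; exact hfx
  rcases hw₀'.lt_or_gt with hneg | hpos
  · apply h.gamma' (A := -((1 + M) * w₀)) (div_pos hM hM1) (by nlinarith)
    intro x hx1 hx2
    rcases hx1.eq_or_lt with rfl | hx1
    · rw [h.zero]; simp
    have hden : (1 + M) * w₀ < 0 := by nlinarith
    have := hray (x / ((1 + M) * w₀)) (div_pos_of_neg_of_neg hx1 hden) (by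
      rw [div_le_one_of_neg hden]; linarith)
    have e1 : (1 + M) * (x / ((1 + M) * w₀) * w₀) = x := by field_simp
    have e2 : M * (x / ((1 + M) * w₀) * w₀) = M / (1 + M) * x := by field_simp
    rw [e1, e2] at this
    rw [this]; ring
  · apply h.gamma (A := (1 + M) * w₀) (div_pos hM hM1) (by positivity)
    intro x hx1 hx2
    rcases hx1.eq_or_lt with rfl | hx1
    · rw [h.zero]; simp
    have hden : 0 < (1 + M) * w₀ := by positivity
    have := hray (x / ((1 + M) * w₀)) (div_pos hx1 hden) (by rw [div_le_one hden]; linarith)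
    have e1 : (1 + M) * (x / ((1 + M) * w₀) * w₀) = x := by field_simp
    have e2 : M * (x / ((1 + M) * w₀) * w₀) = M / (1 + M) * x := by field_simp
    rw [e1, e2] at this
    rw [this]; ring

end Pool.Agent.H717R2
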