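import Pool.Agent.H717R2.FeqF

/-!
# Solutions of `f (x + f x) = f x + f (f x)`: final case analysis
-/

namespace Pool.Agent.H717R2

open Set

variable {f : ℝ → ℝ}

lemma pos_of_mul_neg {x y : ℝ} (h : x * y < 0) (hx : x < 0) : 0 < y := by
  by_contra hcon
  push Not at hcon
  have := mul_nonneg_of_nonpos_of_nonpos hx.le hcon
  linarith

lemma neg_of_mul_neg {x y : ℝ} (h : x * y < 0) (hx : 0 < x) : y < 0 := by
  by_contra hcon
  push Not at hcon
  have := mul_nonneg hx.le hcon
  linarith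

/-- The alternating case. -/
lemma Sol.L2 (h : Sol f) {ε : ℝ} (hε : 0 < ε) (hR : ∀ x, 0 < x → x < ε → f x < 0)
    (hL : ∀ x, x < 0 → -ε < x → 0 < f x) : ∃ β, 0 < β ∧ ∀ x, f x = -β * x := by
  have hc := h.cont
  have hs : ∀ w, w ≠ 0 → |w| < ε → w * f w < 0 := by
    intro w hw0 hw
    rw [abs_lt] at hw
    rcases hw0.lt_or_gt with h0 | h0
    · exact mul_neg_of_neg_of_pos h0 (hL w h0 hw.1)
    · exact mul_neg_of_pos_of_neg h0 (hR w h0 hw.2)
  obtain ⟨ε₁, hε₁, hε₁'⟩ := small_of_cont f hc h.zero hε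
  set ε₂ := min ε₁ ε with hε₂def
  have hε₂ : 0 < ε₂ := lt_min hε₁ hε
  have hs2 : ∀ w, w ≠ 0 → |w| < ε₂ → w * f w < 0 ∧ f (f w) ≠ 0 := by
    intro w hw0 hw
    have h1 := hs w hw0 (lt_of_lt_of_le hw (min_le_right _ _))
    have h2 := hε₁' w (hw.le.trans (min_le_left _ _))
    have h3 : f w ≠ 0 := by
      intro h0; rw [h0, mul_zero] at h1; exact lt_irrefl _ h1
    have h4 := hs (f w) h3 h2
    refine ⟨h1, fun h0 => ?_⟩
    rw [h0, mul_zero] at h4; exact lt_irrefl _ h4
  obtain ⟨e₁, he₁, he₁'⟩ := small_of_cont (fun x => x + f x) (by fun_prop) (by simp [h.zero]) hε₂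
  set e := min e₁ (ε / 2) with hedef
  have he : 0 < e := lt_min he₁ (by linarith)
  have hege : ∀ x, |x| ≤ e → |x + f x| < ε₂ := fun x hx => he₁' x (hx.trans (min_le_left _ _))
  have heε : e < ε := lt_of_le_of_lt (min_le_right _ _) (by linarith)
  have hfe : ∀ x, x ≠ 0 → |x| ≤ e → x * f x < 0 := fun x hx0 hx => hs x hx0 (by linarith)
  by_cases hzero : ∃ x₀, x₀ ≠ 0 ∧ |x₀| ≤ e ∧ x₀ + f x₀ = 0
  · -- (α)
    obtain ⟨x₀, hx₀, hx₀e, hx₀g⟩ := hzero
    refine ⟨1, one_pos, ?_⟩
    rcases hx₀.lt_or_gt with hneg | hpos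
    · rw [abs_of_neg hneg] at hx₀e
      apply h.gamma' (A := -x₀) one_pos (by linarith)
      intro x hx1 hx2
      have := h.flip.alpha1 (ε := ε₂) (e := e) (x₀ := -x₀) (by
        intro w hw0 hw
        have := hs2 (-w) (by simpa using hw0) (by rwa [abs_neg])
        refine ⟨by linarith [this.1], ?_⟩
        simp only [neg_neg, ne_eq, neg_eq_zero]
        exact this.2) (by
        intro y hy
        have := hege (-y) (by rwa [abs_neg])
        rw [← abs_neg]
        convert this using 2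
        ring) (by linarith) hx₀e (by simp only [neg_neg]; linarith) (-x) (by linarith) (by linarith)
      simp only [neg_neg] at this
      linarith
    · rw [abs_of_pos hpos] at hx₀e
      apply h.gamma (A := x₀) one_pos hpos
      intro x hx1 hx2
      have := h.alpha1 hs2 hege hpos hx₀e hx₀g x hx1 hx2
      linarith
  · -- (β)
    push Not at hzero
    have hgc : Continuous (fun x => x + f x) := by fun_prop
    obtain ⟨d₁, hd₁, hd₁'⟩ := small_of_cont f hc h.zero he
    set d := min d₁ e with hd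
    have hd0 : 0 < d := lt_min hd₁ he
    have hde : d ≤ e := min_le_right _ _
    have hfd : |f d| < e := hd₁' d (by rw [abs_of_pos hd0]; exact min_le_left _ _)
    have hfdneg : f d < 0 := hR d hd0 (by linarith)
    have hgde := hzero d hd0.ne' (by rw [abs_of_pos hd0]; exact hde)
    have hgdsmall : |d + f d| < ε := lt_of_lt_of_le (hege d (by rw [abs_of_pos hd0]; exact hde))
      (min_le_right _ _)
    have hright : ∀ u, 0 < u → u ≤ e → ∀ v, 0 < v → v ≤ e → ∀ z ∈ uIcc u v, z + f z ≠ 0 := by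
      intro u hu hue v hv hve z hz
      have hz1 : 0 < z := lt_of_lt_of_le (lt_min hu hv) hz.1
      have hz2 : z ≤ e := hz.2.trans (max_le hue hve)
      exact hzero z hz1.ne' (by rw [abs_of_pos hz1]; exact hz2)
    have hleft : ∀ u, u < 0 → -e ≤ u → ∀ v, v < 0 → -e ≤ v → ∀ z ∈ uIcc u v, z + f z ≠ 0 := by
      intro u hu hue v hv hve z hz
      have hz1 : z < 0 := lt_of_le_of_lt hz.2 (max_lt hu hv)
      have hz2 : -e ≤ z := (le_min hue hve).trans hz.1
      exact hzero z hz1.ne (by rw [abs_of_neg hz1]; linarith)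
    rw [abs_lt] at hfd
    have hgfd : f d + f (f d) = f (d + f d) := h.comm d
    rcases lt_or_gt_of_ne hgde with hneg | hpos
    · -- g < 0 on the right, g > 0 on the left
      have h1 : 0 < f (d + f d) := pos_of_mul_neg (hs _ hgde hgdsmall) hneg
      have h2 : 0 < f d + f (f d) := by rw [hgfd]; exact h1
      apply h.beta2 he hfe
      intro x hx0 hxe
      rcases hx0.lt_or_gt with hx0 | hx0
      · rw [abs_of_neg hx0] at hxe
        have := sign_const (fun x => x + f x) hgc (u := f d) (v := x)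
          (hleft (f d) hfdneg (by linarith) x hx0 (by linarith)) h2
        exact mul_neg_of_neg_of_pos hx0 this
      · rw [abs_of_pos hx0] at hxe
        have := sign_const' (fun x => x + f x) hgc (u := d) (v := x)
          (hright d hd0 hde x hx0 hxe) hneg
        exact mul_neg_of_pos_of_neg hx0 this
    · have h1 : f (d + f d) < 0 := neg_of_mul_neg (hs _ hgde hgdsmall) hpos
      have h2 : f d + f (f d) < 0 := by rw [hgfd]; exact h1
      apply h.beta1 he hfe
      intro x hx0 hxe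
      rcases hx0.lt_or_gt with hx0 | hx0
      · rw [abs_of_neg hx0] at hxe
        have := sign_const' (fun x => x + f x) hgc (u := f d) (v := x)
          (hleft (f d) hfdneg (by linarith) x hx0 (by linarith)) h2
        exact mul_pos_of_neg_of_neg hx0 this
      · rw [abs_of_pos hx0] at hxe
        have := sign_const (fun x => x + f x) hgc (u := d) (v := x)
          (hright d hd0 hde x hx0 hxe) hpos
        exact mul_pos hx0 this

/-- trichotomy at `0+` -/
lemma trichotomy (hc : Continuous f) :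
    (∃ ε > 0, ∀ x, 0 < x → x < ε → 0 < f x) ∨ (∃ ε > 0, ∀ x, 0 < x → x < ε → f x < 0) ∨
      (∀ ε > 0, ∃ z, 0 < z ∧ z < ε ∧ f z = 0) := by
  by_cases hz : ∀ ε > 0, ∃ z, 0 < z ∧ z < ε ∧ f z = 0
  · exact Or.inr (Or.inr hz)
  push Not at hz
  obtain ⟨ε, hε, hne⟩ := hz
  have h2 : f (ε / 2) ≠ 0 := hne _ (by linarith) (by linarith)
  have hu : ∀ x, 0 < x → x < ε → ∀ z ∈ uIcc (ε / 2) x, f z ≠ 0 := by
    intro x hx0 hx z hz
    exact hne z (lt_of_lt_of_le (lt_min (by linarith) hx0) hz.1)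
      (lt_of_le_of_lt hz.2 (max_lt (by linarith) hx))
  rcases h2.lt_or_gt with hneg | hpos
  · exact Or.inr (Or.inl ⟨ε, hε, fun x hx0 hx => sign_const' f hc (hu x hx0 hx) hneg⟩)
  · exact Or.inl ⟨ε, hε, fun x hx0 hx => sign_const f hc (hu x hx0 hx) hpos⟩

/-- trichotomy at `0-` -/
lemma trichotomy' (hc : Continuous f) :
    (∃ ε > 0, ∀ x, x < 0 → -ε < x → f x < 0) ∨ (∃ ε > 0, ∀ x, x < 0 → -ε < x → 0 < f x) ∨
      (∀ ε > 0, ∃ z, 0 < z ∧ z < ε ∧ f (-z) = 0) := by
  rcases trichotomy (f := fun x => -f (-x)) (by fun_prop) with ⟨ε, hε, h⟩ | ⟨ε, hε, h⟩ | h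
  · refine Or.inl ⟨ε, hε, fun x hx0 hx => ?_⟩
    have := h (-x) (by linarith) (by linarith)
    simp only [neg_neg] at this
    linarith
  · refine Or.inr (Or.inl ⟨ε, hε, fun x hx0 hx => ?_⟩)
    have := h (-x) (by linarith) (by linarith)
    simp only [neg_neg] at this
    linarith
  · refine Or.inr (Or.inr fun ε hε => ?_)
    obtain ⟨z, h1, h2, h3⟩ := h ε hε
    exact ⟨z, h1, h2, by linarith⟩

lemma Sol.L1' (h : Sol f) {ε : ℝ} (hε : 0 < ε) (hneg : ∀ x, x < 0 → -ε < x → f x < 0) :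
    ∃ M, 0 < M ∧ ∀ x, x ≤ 0 → f x = M * x := by
  obtain ⟨M, hM, hM'⟩ := h.flip.L1 hε (fun x hx0 hx => by
    have := hneg (-x) (by linarith) (by linarith)
    linarith)
  refine ⟨M, hM, fun x hx => ?_⟩
  have := hM' (-x) (by linarith)
  simp only [neg_neg] at this
  linarith

/-- `f < 0` right of zero and zeros accumulating at `0-` is impossible. -/
lemma Sol.L5 (h : Sol f) {ε : ℝ} (hε : 0 < ε) (hR : ∀ x, 0 < x → x < ε → f x < 0)
    (hz : ∀ ε > 0, ∃ z, 0 < z ∧ z < ε ∧ f (-z) = 0) : False := by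
  have hc := h.cont
  have hnn : ∀ x, x < 0 → 0 ≤ f x := fun x hx => h.L4' hz h.zero hx
  have hv : f (ε / 2) < 0 := hR _ (by linarith) (by linarith)
  obtain ⟨z, hz0, hz1, hz2⟩ := hz (-f (ε / 2)) (by linarith)
  obtain ⟨x, hx, hfx⟩ := intermediate_value_Icc' (by linarith : (0 : ℝ) ≤ ε / 2) hc.continuousOn
    (show -z ∈ Icc (f (ε / 2)) (f 0) by rw [h.zero]; constructor <;> linarith)
  obtain ⟨n, hn⟩ := exists_nat_gt (x / z)
  rw [div_lt_iff₀ hz0] at hn
  have h1 := h.iter hfx hz2 n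
  have h2 := hnn (x + n * (-z)) (by linarith)
  rw [h1] at h2
  linarith

lemma Sol.L5' (h : Sol f) {ε : ℝ} (hε : 0 < ε) (hL : ∀ x, x < 0 → -ε < x → 0 < f x)
    (hz : ∀ ε > 0, ∃ z, 0 < z ∧ z < ε ∧ f z = 0) : False := by
  apply h.flip.L5 hε
  · intro x hx0 hx
    have := hL (-x) (by linarith) (by linarith)
    linarith
  · intro e he
    obtain ⟨z, h1, h2, h3⟩ := hz e he
    exact ⟨z, h1, h2, by simp [h3]⟩

/-- if `f` vanishes on `[0,p]`, on `[-p,0]`, then it does not become negative on the right. -/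
lemma Sol.L6 (h : Sol f) {p : ℝ} (hp : 0 < p) (hz : ∀ x, |x| ≤ p → f x = 0) {X : ℝ} (hX : 0 < X) :
    0 ≤ f X := by
  have hc := h.cont
  by_contra hcon
  push Not at hcon
  set y := min p (-f X) with hy
  have hy0 : 0 < y := lt_min hp (by linarith)
  have hyp : y ≤ p := min_le_left _ _
  have hyX : y ≤ -f X := min_le_right _ _
  have hfy : f (-y) = 0 := hz (-y) (by rw [abs_neg, abs_of_pos hy0]; exact hyp)
  obtain ⟨x, hx, hfx⟩ := intermediate_value_Icc' hX.le hc.continuousOn
    (show -y ∈ Icc (f X) (f 0) by rw [h.zero]; constructor <;> linarith)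
  set n := ⌊x / y⌋₊ with hn
  have hnn : 0 ≤ x / y := div_nonneg hx.1 hy0.le
  have h1 : (n : ℝ) ≤ x / y := Nat.floor_le hnn
  have h2 : x / y < n + 1 := Nat.lt_floor_add_one _
  rw [le_div_iff₀ hy0] at h1
  rw [div_lt_iff₀ hy0] at h2
  have h3 := h.iter hfx hfy n
  have h4 := hz (x + n * (-y)) (by rw [abs_le]; constructor <;> linarith)
  rw [h3] at h4
  linarith

lemma Sol.L6' (h : Sol f) {p : ℝ} (hp : 0 < p) (hz : ∀ x, |x| ≤ p → f x = 0) {X : ℝ} (hX : X < 0) :
    f X ≤ 0 := by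
  have := h.flip.L6 hp (fun x hx => by
    show -f (-x) = 0
    rw [hz (-x) (by rwa [abs_neg])]; simp) (X := -X) (by linarith)
  simp only [neg_neg] at this
  linarith

/-- The classification. -/
theorem Sol.classify (h : Sol f) :
    (∃ a : ℝ, ∀ x, f x = a * x) ∨
      (∃ a b : ℝ, 0 ≤ a ∧ 0 ≤ b ∧ ∀ x, f x = if 0 ≤ x then a * x else b * x) := by
  have hc := h.cont
  have fin : ∀ a b : ℝ, 0 ≤ a → 0 ≤ b → (∀ x, 0 ≤ x → f x = a * x) → (∀ x, x ≤ 0 → f x = b * x) →
      (∃ a : ℝ, ∀ x, f x = a * x) ∨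
      (∃ a b : ℝ, 0 ≤ a ∧ 0 ≤ b ∧ ∀ x, f x = if 0 ≤ x then a * x else b * x) := by
    intro a b ha hb h1 h2
    refine Or.inr ⟨a, b, ha, hb, fun x => ?_⟩
    split_ifs with hx
    · exact h1 x hx
    · exact h2 x (not_le.mp hx).le
  rcases trichotomy hc with ⟨ε, hε, hA⟩ | ⟨ε, hε, hB⟩ | hZ
  · -- A+
    obtain ⟨M, hM, hlin⟩ := h.L1 hε hA
    have hleft := h.L3' hM.le hlin
    rcases trichotomy' hc with ⟨ε', hε', hA'⟩ | ⟨ε', hε', hB'⟩ | hZ'
    · obtain ⟨M', hM', hlin'⟩ := h.L1' hε' hA'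
      exact fin M M' hM.le hM'.le hlin hlin'
    · have h1 := hleft (-ε' / 2) (by linarith)
      have h2 := hB' (-ε' / 2) (by linarith) (by linarith)
      linarith
    · refine fin M 0 hM.le le_rfl hlin fun x hx => ?_
      rcases hx.eq_or_lt with rfl | hx
      · rw [h.zero]; ring
      · have := h.L4' hZ' h.zero hx
        have := hleft x hx
        linarith
  · -- B+
    rcases trichotomy' hc with ⟨ε', hε', hA'⟩ | ⟨ε', hε', hB'⟩ | hZ'
    · obtain ⟨M', hM', hlin'⟩ := h.L1' hε' hA'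
      have h1 := h.L3 hM'.le hlin' (ε / 2) (by linarith)
      have h2 := hB (ε / 2) (by linarith) (by linarith)
      linarith
    · obtain ⟨β, hβ, hlin⟩ := h.L2 (ε := min ε ε') (lt_min hε hε')
        (fun x hx0 hx => hB x hx0 (lt_of_lt_of_le hx (min_le_left _ _)))
        (fun x hx0 hx => hB' x hx0 (by linarith [min_le_right ε ε']))
      exact Or.inl ⟨-β, hlin⟩
    · exact (h.L5 hε hB hZ').elim
  · -- Z+
    rcases trichotomy' hc with ⟨ε', hε', hA'⟩ | ⟨ε', hε', hB'⟩ | hZ'
    · obtain ⟨M', hM', hlin'⟩ := h.L1' hε' hA'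
      have hright := h.L3 hM'.le hlin'
      refine fin 0 M' le_rfl hM'.le (fun x hx => ?_) hlin'
      rcases hx.eq_or_lt with rfl | hx
      · rw [h.zero]; ring
      · have := h.L4 hZ h.zero hx
        have := hright x hx
        linarith
    · exact (h.L5' hε' hB' hZ).elim
    · -- both sides accumulate
      obtain ⟨p, hp0, _, hp⟩ := hZ 1 one_pos
      obtain ⟨q, hq0, _, hq⟩ := hZ' 1 one_pos
      have hzero : ∀ x, |x| ≤ min p q → f x = 0 := by
        intro x hx
        rw [abs_le] at hx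
        have m1 := min_le_left p q
        have m2 := min_le_right p q
        rcases lt_trichotomy x 0 with h0 | h0 | h0
        · have h1 := h.L4' hZ' h.zero h0
          rcases (by linarith : -q ≤ x).eq_or_lt with h2 | h2
          · rw [← h2]; exact hq
          · have := h.L4 hZ hq h2
            linarith
        · rw [h0]; exact h.zero
        · have h1 := h.L4 hZ h.zero h0
          rcases (by linarith : x ≤ p).eq_or_lt with h2 | h2
          · rw [h2]; exact hp
          · have := h.L4' hZ' hp h2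
            linarith
      refine Or.inl ⟨0, fun x => ?_⟩
      have hpq : 0 < min p q := lt_min hp0 hq0
      rw [zero_mul]
      rcases lt_trichotomy x 0 with h0 | h0 | h0
      · have h1 := h.L4' hZ' h.zero h0
        have h2 := h.L6' hpq hzero h0
        linarith
      · rw [h0]; exact h.zero
      · have h1 := h.L4 hZ h.zero h0
        have h2 := h.L6 hpq hzero h0
        linarith

end Pool.Agent.H717R2
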